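import Pool.Agent.OG88.Eigen
import Mathlib.Analysis.InnerProductSpace.PiL2

/-!
Hoffman's bound for the Cayley graph of the cycles of odd length.
-/

namespace Pool.Agent.OG88

open Equiv Finset

variable {n : ℕ}

open scoped RealInnerProductSpace

/-- The regular representation. -/
noncomputable def reg (n : ℕ) :
    Perm (Fin n) →* Module.End ℝ (EuclideanSpace ℝ (Perm (Fin n))) where
  toFun π :=
    { toFun := fun f => WithLp.toLp 2 (fun σ => f (σ * π))
      map_add' := fun f g => by ext σ; simp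
      map_smul' := fun r f => by ext σ; simp }
  map_one' := by ext f σ; simp
  map_mul' := fun π ρ => by ext f σ; simp [mul_assoc]

lemma reg_apply (π σ : Perm (Fin n)) (f : EuclideanSpace ℝ (Perm (Fin n))) :
    (reg n π f) σ = f (σ * π) := rfl

lemma orth_reg (n : ℕ) : Orth (reg n) := by
  intro π f g
  rw [PiLp.inner_apply, PiLp.inner_apply]
  exact Fintype.sum_equiv (Equiv.mulRight π) _ _ (fun σ => rfl)

lemma hoffman (F : Finset (Perm (Fin n))) {π₀ : Perm (Fin n)} {η : ℝ} (hη : 0 ≤ η)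
    (hF : ∀ σ ∈ F, ∀ g : Perm (Fin n), σ * (g * π₀ * g⁻¹) ∉ F)
    (hχ : ∀ (v : EuclideanSpace ℝ (Perm (Fin n))) (χ : Perm (Fin n) → ℝ),
      IsState (reg n) v χ → -η ≤ χ π₀) :
    (F.card : ℝ) ≤ η * n.factorial := by
  classical
  rcases F.eq_empty_or_nonempty with rfl | ⟨σ₀, hσ₀⟩
  · simp; positivity
  set N : ℝ := (n.factorial : ℝ) with hN
  have hN0 : 0 < N := by rw [hN]; positivity
  set δ : ℝ := F.card / N with hδ
  have hδN : δ * N = F.card := by rw [hδ]; field_simp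
  have hδ0 : 0 < δ := by
    have : 0 < F.card := Finset.card_pos.2 ⟨σ₀, hσ₀⟩
    rw [hδ]; positivity
  set u : Perm (Fin n) → ℝ := fun σ => if σ ∈ F then 1 else 0 with hu
  set f : EuclideanSpace ℝ (Perm (Fin n)) := WithLp.toLp 2 (fun σ => u σ - δ) with hf
  have hfσ : ∀ σ, f σ = u σ - δ := fun σ => rfl
  have hcard : ∑ σ : Perm (Fin n), (1 : ℝ) = N := by
    simp [hN, Fintype.card_perm]
  have husum : ∑ σ : Perm (Fin n), u σ = F.card := by
    simp [hu]
  have hf0 : f ≠ 0 := by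
    intro h
    have h1 : f σ₀ = 0 := by rw [h]; rfl
    have h2 : f (σ₀ * π₀) = 0 := by rw [h]; rfl
    have h3 : σ₀ * π₀ ∉ F := by simpa using hF σ₀ hσ₀ 1
    rw [hfσ] at h1 h2
    simp only [hu, hσ₀, h3, if_true, if_false] at h1 h2
    linarith
  obtain ⟨v, χ, hv0, hv, hle⟩ := exists_common (orth_reg n) π₀ f hf0
  -- normalise `v`
  have hstate : IsState (reg n) ((‖v‖)⁻¹ • v) (fun π => N⁻¹ * χ π) := by
    refine ⟨?_, fun π => ?_⟩
    · rw [norm_smul, norm_inv, norm_norm]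
      exact inv_mul_cancel₀ (norm_ne_zero_iff.2 hv0)
    · rw [map_smul, hv π, smul_comm]
      congr 2
      rw [← mul_assoc, mul_inv_cancel₀ hN0.ne', one_mul]
  have h1 := hχ _ _ hstate
  have h2 : -(η * N) ≤ χ π₀ := by
    have := mul_le_mul_of_nonneg_left h1 hN0.le
    rw [← mul_assoc, mul_inv_cancel₀ hN0.ne', one_mul] at this
    linarith
  -- the quadratic form
  have hq : ∀ g : Perm (Fin n), ⟪reg n (g * π₀ * g⁻¹) f, f⟫ = -(δ ^ 2 * N) := by
    intro g
    set ρ := g * π₀ * g⁻¹ with hρ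
    rw [PiLp.inner_apply]
    have h3 : ∀ σ : Perm (Fin n), inner ℝ ((reg n ρ f) σ) (f σ)
        = (-δ) * u (σ * ρ) + (-δ) * u σ + δ ^ 2 * 1 := by
      intro σ
      have h4 : u (σ * ρ) * u σ = 0 := by
        by_cases hσ : σ ∈ F
        · have h6 : σ * ρ ∉ F := hF σ hσ g
          simp [hu, h6]
        · simp [hu, hσ]
      have h5 : inner ℝ ((reg n ρ f) σ) (f σ) = (u σ - δ) * (u (σ * ρ) - δ) := rfl
      rw [h5]
      linarith [h4]
    rw [Finset.sum_congr rfl (fun σ _ => h3 σ), Finset.sum_add_distrib, Finset.sum_add_distrib,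
      ← Finset.mul_sum, ← Finset.mul_sum, ← Finset.mul_sum, hcard, husum]
    have h6 : ∑ σ : Perm (Fin n), u (σ * ρ) = F.card := by
      rw [← husum]
      exact Fintype.sum_equiv (Equiv.mulRight ρ) _ _ (fun σ => rfl)
    rw [h6, ← hδN]
    ring
  have hZ : ⟪Z (reg n) π₀ f, f⟫ = -(δ ^ 2 * N ^ 2) := by
    unfold Z
    rw [LinearMap.sum_apply, sum_inner, Finset.sum_congr rfl (fun g _ => hq g), Finset.sum_const,
      nsmul_eq_mul]
    simp only [Finset.card_univ, Fintype.card_perm, Fintype.card_fin]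
    rw [← hN]; ring
  have hnorm : ‖f‖ ^ 2 = δ * N - δ ^ 2 * N := by
    rw [← real_inner_self_eq_norm_sq, PiLp.inner_apply]
    have h3 : ∀ σ : Perm (Fin n), inner ℝ (f σ) (f σ) = (1 - 2 * δ) * u σ + δ ^ 2 * 1 := by
      intro σ
      have h5 : inner ℝ (f σ) (f σ) = (u σ - δ) * (u σ - δ) := rfl
      have h4 : u σ * u σ = u σ := by
        by_cases hσ : σ ∈ F
        · simp [hu, hσ]
        · simp [hu, hσ]
      rw [h5]
      linarith [h4]
    rw [Finset.sum_congr rfl (fun σ _ => h3 σ), Finset.sum_add_distrib, ← Finset.mul_sum,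
      ← Finset.mul_sum, hcard, husum, ← hδN]
    ring
  rw [hZ] at hle
  have hnn : 0 ≤ ‖f‖ ^ 2 := by positivity
  have h3 : -(η * N) * ‖f‖ ^ 2 ≤ -(δ ^ 2 * N ^ 2) :=
    (mul_le_mul_of_nonneg_right h2 hnn).trans hle
  rw [hnorm] at h3
  have h4 : δ ^ 2 * N ^ 2 ≤ η * N ^ 2 * δ := by
    have : 0 ≤ η * N ^ 2 * δ ^ 2 := by positivity
    nlinarith
  have h5 : δ ≤ η := by
    have h6 : (N ^ 2 * δ) * δ ≤ (N ^ 2 * δ) * η := by nlinarith
    exact le_of_mul_le_mul_left h6 (by positivity)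
  rw [← hδN]
  exact mul_le_mul_of_nonneg_right h5 hN0.le

/-- Families without two members that differ by a cycle of length `2e+1`. -/
theorem card_le_of_cycle_free {e : ℕ} (F : Finset (Perm (Fin n)))
    (hF : ∀ σ ∈ F, ∀ τ ∈ F, ¬ ((σ⁻¹ * τ).IsCycle ∧ (σ⁻¹ * τ).support.card = 2 * e + 1)) :
    F.card * n ^ e ≤ (2 * (2 * e + 1)) ^ (2 * e) * n.factorial := by
  have htriv : F.card ≤ n.factorial := by
    refine (Finset.card_le_univ F).trans ?_
    simp [Fintype.card_perm]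
  rcases Nat.eq_zero_or_pos e with rfl | he
  · simpa using htriv
  by_cases hn : 4 * (2 * e + 1) ^ 2 ≤ n
  · have hn0 : 0 < n := by nlinarith
    have hen : 2 * e < n := by nlinarith
    have h1 := hoffman F (π₀ := cyc hn0 (2 * e)) (η := (4 * (2 * e + 1) ^ 2 / n : ℝ) ^ e)
      (by positivity)
      (by
        intro σ hσ g hmem
        apply hF σ hσ _ hmem
        have h2 : σ⁻¹ * (σ * (g * cyc hn0 (2 * e) * g⁻¹)) = g * cyc hn0 (2 * e) * g⁻¹ := by
          group
        rw [h2]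
        refine ⟨(cyc_isCycle hn0 (2 * e) hen (by omega)).conj, ?_⟩
        rw [Perm.card_support_conj, card_cyc_support hn0 (2 * e) hen (by omega)])
      (fun v χ hs => chi_lower (orth_reg n) hs he hn hn0)
    have hnR : (0 : ℝ) < n := by exact_mod_cast hn0
    have h3 : (F.card : ℝ) * (n : ℝ) ^ e
        ≤ (2 * (2 * (e : ℝ) + 1)) ^ (2 * e) * n.factorial := by
      have h4 := mul_le_mul_of_nonneg_right h1 (by positivity : (0 : ℝ) ≤ (n : ℝ) ^ e)
      refine h4.trans (le_of_eq ?_)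
      have h5 : (2 * (2 * (e : ℝ) + 1)) ^ (2 * e) = (4 * (2 * (e : ℝ) + 1) ^ 2) ^ e := by
        rw [pow_mul]; congr 1; ring
      rw [h5, div_pow]
      field_simp
    exact_mod_cast h3
  · -- small `n`
    push Not at hn
    have h1 : n ^ e ≤ (2 * (2 * e + 1)) ^ (2 * e) := by
      rw [pow_mul]
      apply Nat.pow_le_pow_left
      nlinarith
    calc F.card * n ^ e ≤ n.factorial * (2 * (2 * e + 1)) ^ (2 * e) := Nat.mul_le_mul htriv h1
      _ = _ := mul_comm _ _

end Pool.Agent.OG88
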