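import Mathlib.Analysis.InnerProductSpace.JointEigenspace
import Mathlib.Analysis.InnerProductSpace.Rayleigh
import Mathlib.GroupTheory.Perm.Cycle.Type
import Mathlib.Tactic

/-!
Class sums of the symmetric group in an orthogonal representation: a common eigenvector in the
lowest eigenspace of one of them.
-/

namespace Pool.Agent.OG88

open Equiv

variable {n : ℕ} {V : Type*} [NormedAddCommGroup V] [InnerProductSpace ℝ V]

open scoped RealInnerProductSpace

/-- Orthogonal representation. -/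
def Orth (R : Perm (Fin n) →* Module.End ℝ V) : Prop :=
  ∀ π x y, ⟪R π x, R π y⟫ = ⟪x, y⟫

lemma Orth.norm_eq {R : Perm (Fin n) →* Module.End ℝ V} (hR : Orth R) (π : Perm (Fin n)) (x : V) :
    ‖R π x‖ = ‖x‖ := by
  have h := hR π x x
  rw [real_inner_self_eq_norm_sq, real_inner_self_eq_norm_sq] at h
  exact (sq_eq_sq₀ (norm_nonneg _) (norm_nonneg _)).1 h

lemma Orth.inner_left {R : Perm (Fin n) →* Module.End ℝ V} (hR : Orth R) (π : Perm (Fin n))
    (x y : V) : ⟪R π x, y⟫ = ⟪x, R π⁻¹ y⟫ := by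
  rw [← hR π⁻¹ (R π x) y, ← Module.End.mul_apply, ← map_mul]
  simp

/-- The (unnormalised) class sum. -/
noncomputable def Z (R : Perm (Fin n) →* Module.End ℝ V) (π : Perm (Fin n)) : Module.End ℝ V :=
  ∑ g : Perm (Fin n), R (g * π * g⁻¹)

lemma Z_conj (R : Perm (Fin n) →* Module.End ℝ V) (π h : Perm (Fin n)) :
    Z R (h * π * h⁻¹) = Z R π := by
  unfold Z
  refine Fintype.sum_equiv (Equiv.mulRight h) _ _ (fun g => ?_)
  simp [mul_assoc]

lemma Z_commute_R (R : Perm (Fin n) →* Module.End ℝ V) (π h : Perm (Fin n)) :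
    R h * Z R π = Z R π * R h := by
  unfold Z
  rw [Finset.mul_sum, Finset.sum_mul]
  refine Fintype.sum_equiv (Equiv.mulLeft h) _ _ (fun g => ?_)
  rw [← map_mul, ← map_mul]
  congr 1
  simp [mul_assoc]

lemma Z_commute (R : Perm (Fin n) →* Module.End ℝ V) (π ρ : Perm (Fin n)) :
    Commute (Z R π) (Z R ρ) := by
  show Z R π * Z R ρ = Z R ρ * Z R π
  conv_lhs => rw [show Z R π = ∑ g : Perm (Fin n), R (g * π * g⁻¹) from rfl]
  conv_rhs => rw [show Z R π = ∑ g : Perm (Fin n), R (g * π * g⁻¹) from rfl]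
  rw [Finset.sum_mul, Finset.mul_sum]
  exact Finset.sum_congr rfl (fun g _ => Z_commute_R R ρ _)

lemma Z_inv (R : Perm (Fin n) →* Module.End ℝ V) (π : Perm (Fin n)) : Z R π⁻¹ = Z R π := by
  have h : IsConj π π⁻¹ := by
    rw [Equiv.Perm.isConj_iff_cycleType_eq, Equiv.Perm.cycleType_inv]
  obtain ⟨c, hc⟩ := isConj_iff.1 h
  rw [← hc, Z_conj]

lemma Z_isSymmetric {R : Perm (Fin n) →* Module.End ℝ V} (hR : Orth R) (π : Perm (Fin n)) :
    (Z R π).IsSymmetric := by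
  intro x y
  have h1 : ⟪Z R π x, y⟫ = ∑ g : Perm (Fin n), ⟪R (g * π * g⁻¹) x, y⟫ := by
    unfold Z; rw [LinearMap.sum_apply, sum_inner]
  have h2 : ⟪x, Z R π y⟫ = ∑ g : Perm (Fin n), ⟪x, R (g * π⁻¹ * g⁻¹) y⟫ := by
    rw [← Z_inv]; unfold Z; rw [LinearMap.sum_apply, inner_sum]
  rw [h1, h2]
  refine Finset.sum_congr rfl (fun g _ => ?_)
  rw [hR.inner_left]
  simp [mul_assoc]

/-- A common eigenvector of all class sums in the lowest eigenspace of one of them. -/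
lemma exists_common [FiniteDimensional ℝ V] {R : Perm (Fin n) →* Module.End ℝ V} (hR : Orth R)
    (π₀ : Perm (Fin n)) (f : V) (hf : f ≠ 0) :
    ∃ (v : V) (χ : Perm (Fin n) → ℝ), v ≠ 0 ∧ (∀ π, Z R π v = χ π • v) ∧
      χ π₀ * ‖f‖ ^ 2 ≤ ⟪Z R π₀ f, f⟫ := by
  have hnt : Nontrivial V := ⟨f, 0, hf⟩
  set T := Z R π₀ with hT
  have hTs : T.IsSymmetric := Z_isSymmetric hR π₀
  obtain ⟨w, hw⟩ := (hTs.hasEigenvalue_iInf_of_finiteDimensional).exists_hasEigenvector
  set μ : ℝ := ((⨅ x : { x : V // x ≠ 0 }, RCLike.re ⟪T x, x⟫ / ‖(x : V)‖ ^ 2 : ℝ) : ℝ) with hμ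
  have hw1 : T w = μ • w := hw.apply_eq_smul
  have hw0 : w ≠ 0 := hw.2
  -- the infimum is a lower bound
  have hbdd : BddBelow (Set.range fun x : { x : V // x ≠ 0 } =>
      RCLike.re ⟪T x, (x : V)⟫ / ‖(x : V)‖ ^ 2) := by
    refine ⟨-‖LinearMap.toContinuousLinearMap T‖, ?_⟩
    rintro _ ⟨x, rfl⟩
    have hx : 0 < ‖(x : V)‖ ^ 2 := by
      have := norm_pos_iff.2 x.2
      positivity
    have h1 : |⟪T x, (x : V)⟫| ≤ ‖LinearMap.toContinuousLinearMap T‖ * ‖(x : V)‖ ^ 2 := by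
      refine (abs_real_inner_le_norm _ _).trans ?_
      have := (LinearMap.toContinuousLinearMap T).le_opNorm (x : V)
      have h2 : ‖T (x : V)‖ ≤ ‖LinearMap.toContinuousLinearMap T‖ * ‖(x : V)‖ := this
      nlinarith [norm_nonneg (x : V)]
    show -‖LinearMap.toContinuousLinearMap T‖ ≤ ⟪T x, (x : V)⟫ / ‖(x : V)‖ ^ 2
    rw [le_div_iff₀ hx]
    have := neg_le_of_abs_le h1
    linarith
  have hle : μ * ‖f‖ ^ 2 ≤ ⟪T f, f⟫ := by
    have h1 : μ ≤ RCLike.re ⟪T f, f⟫ / ‖f‖ ^ 2 := ciInf_le hbdd ⟨f, hf⟩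
    have hx : 0 < ‖f‖ ^ 2 := by
      have := norm_pos_iff.2 hf
      positivity
    exact (le_div_iff₀ hx).1 h1
  -- some joint eigenspace is not orthogonal to `w`
  have htop := LinearMap.IsSymmetric.iSup_iInf_eq_top_of_commute (T := fun π => Z R π)
    (fun π => Z_isSymmetric hR π) (fun π ρ _ => Z_commute R π ρ)
  have hex : ∃ χ : Perm (Fin n) → ℝ, ∃ v ∈ (⨅ π, Module.End.eigenspace (Z R π) (χ π)),
      ⟪v, w⟫ ≠ 0 := by
    by_contra hcon
    push Not at hcon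
    have h1 : w ∈ (⨆ χ : Perm (Fin n) → ℝ,
        ⨅ π, Module.End.eigenspace (Z R π) (χ π))ᗮ := by
      rw [← Submodule.iInf_orthogonal, Submodule.mem_iInf]
      intro χ
      rw [Submodule.mem_orthogonal]
      intro v hv
      exact hcon χ v hv
    rw [htop, Submodule.top_orthogonal_eq_bot, Submodule.mem_bot] at h1
    exact hw0 h1
  obtain ⟨χ, v, hv, hvw⟩ := hex
  have hv1 : ∀ π, Z R π v = χ π • v := fun π =>
    Module.End.mem_eigenspace_iff.1 ((Submodule.mem_iInf _).1 hv π)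
  refine ⟨v, χ, ?_, hv1, ?_⟩
  · rintro rfl
    simp at hvw
  · have h1 : ⟪T v, w⟫ = ⟪v, T w⟫ := hTs v w
    rw [hw1, hT, hv1 π₀, inner_smul_left, inner_smul_right] at h1
    have h2 : χ π₀ = μ := by
      have := mul_right_cancel₀ hvw h1
      simpa using this
    rw [h2]
    exact hle

end Pool.Agent.OG88
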