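import Mathlib.Analysis.InnerProductSpace.JointEigenspace
import Mathlib.GroupTheory.Perm.Cycle.Type
import Mathlib.Tactic

/-!
Lower bounds for the number of transpositions in a product, and explicit cycles.
-/

namespace Pool.Agent.OG88

open Equiv

variable {n : ℕ}

/-- Functions invariant under `π`. -/
def Inv (π : Perm (Fin n)) : Submodule ℝ (Fin n → ℝ) where
  carrier := {c | ∀ i, c (π i) = c i}
  add_mem' := by
    intro a b ha hb i
    simp only [Pi.add_apply]
    rw [ha i, hb i]
  zero_mem' := by intro i; rfl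
  smul_mem' := by
    intro r a ha i
    simp only [Pi.smul_apply]
    rw [ha i]

lemma mem_Inv {π : Perm (Fin n)} {c : Fin n → ℝ} : c ∈ Inv π ↔ ∀ i, c (π i) = c i := Iff.rfl

/-- `π` is not a product of fewer than `l` transpositions. -/
def Good (l : ℕ) (π : Perm (Fin n)) : Prop := Module.finrank ℝ (Inv π) + l ≤ n

lemma good_zero (π : Perm (Fin n)) : Good 0 π := by
  unfold Good
  have := Submodule.finrank_le (Inv π)
  simpa using this

lemma Good.mono {l m : ℕ} {π : Perm (Fin n)} (h : Good l π) (hm : m ≤ l) : Good m π := by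
  unfold Good at *; omega

lemma Good.ne_one {l : ℕ} {π : Perm (Fin n)} (h : Good (l + 1) π) : π ≠ 1 := by
  rintro rfl
  have h1 : Inv (1 : Perm (Fin n)) = ⊤ := by
    ext c; simp [mem_Inv]
  unfold Good at h
  rw [h1, finrank_top] at h
  simp at h

lemma finrank_swap (p s : Fin n) (π : Perm (Fin n)) :
    Module.finrank ℝ (Inv (swap p s * π)) ≤ Module.finrank ℝ (Inv π) + 1 := by
  set φ : (Fin n → ℝ) →ₗ[ℝ] ℝ :=
    (LinearMap.proj p : (Fin n → ℝ) →ₗ[ℝ] ℝ) - (LinearMap.proj s : (Fin n → ℝ) →ₗ[ℝ] ℝ) with hφ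
  have hker : n ≤ Module.finrank ℝ (LinearMap.ker φ) + 1 := by
    have h1 := LinearMap.finrank_range_add_finrank_ker φ
    have h2 : Module.finrank ℝ (LinearMap.range φ) ≤ 1 := by
      have := Submodule.finrank_le (LinearMap.range φ)
      simpa using this
    simp at h1
    omega
  have hsub : Inv (swap p s * π) ⊓ LinearMap.ker φ ≤ Inv π := by
    rintro c ⟨h1, h2⟩
    have hps : c p = c s := by
      have : φ c = 0 := h2
      simp [hφ] at this
      linarith
    intro i
    have h3 := h1 i
    simp only [Perm.coe_mul, Function.comp_apply] at h3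
    rw [← h3]
    by_cases hp : π i = p
    · rw [hp, swap_apply_left]; exact hps
    · by_cases hs : π i = s
      · rw [hs, swap_apply_right]; exact hps.symm
      · rw [swap_apply_of_ne_of_ne hp hs]
  have h3 := Submodule.finrank_sup_add_finrank_inf_eq (Inv (swap p s * π)) (LinearMap.ker φ)
  have h4 := Submodule.finrank_mono hsub
  have h5 := Submodule.finrank_le (Inv (swap p s * π) ⊔ LinearMap.ker φ)
  simp at h5
  omega

lemma Good.swap_mul {l : ℕ} {π : Perm (Fin n)} (h : Good (l + 1) π) (p s : Fin n) :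
    Good l (swap p s * π) := by
  have := finrank_swap p s π
  unfold Good at *
  omega

lemma Good.swap_mul' {l : ℕ} {π : Perm (Fin n)} (h : Good l π) (p s : Fin n) :
    Good (l - 1) (swap p s * π) := by
  rcases l with _ | l
  · exact good_zero _
  · exact h.swap_mul p s

/-- The point `i`. -/
def pt (hn : 0 < n) (i : ℕ) : Fin n := ⟨i % n, Nat.mod_lt _ hn⟩

lemma pt_val (hn : 0 < n) {i : ℕ} (hi : i < n) : (pt hn i : ℕ) = i := Nat.mod_eq_of_lt hi

lemma pt_inj (hn : 0 < n) {i j : ℕ} (hi : i < n) (hj : j < n) : pt hn i = pt hn j ↔ i = j := by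
  constructor
  · intro h
    have := congrArg Fin.val h
    rwa [pt_val hn hi, pt_val hn hj] at this
  · rintro rfl; rfl

lemma pt_self (hn : 0 < n) (a : Fin n) : pt hn (a : ℕ) = a := by
  ext; exact pt_val hn a.2

/-- The cycle `0 → 1 → ⋯ → k → 0`. -/
def cyc (hn : 0 < n) : ℕ → Perm (Fin n)
  | 0 => 1
  | k + 1 => swap (pt hn 0) (pt hn (k + 1)) * cyc hn k

lemma cyc_spec (hn : 0 < n) (k : ℕ) (hk : k < n) :
    (∀ i < k, cyc hn k (pt hn i) = pt hn (i + 1)) ∧ cyc hn k (pt hn k) = pt hn 0 ∧
    ∀ i, k < i → i < n → cyc hn k (pt hn i) = pt hn i := by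
  induction k with
  | zero => simp [cyc]
  | succ k ih =>
    obtain ⟨h1, h2, h3⟩ := ih (by omega)
    refine ⟨fun i hi => ?_, ?_, fun i hi hin => ?_⟩
    · simp only [cyc, Perm.coe_mul, Function.comp_apply]
      rcases Nat.lt_succ_iff_lt_or_eq.1 hi with hi | rfl
      · rw [h1 i hi, swap_apply_of_ne_of_ne]
        · rw [Ne, pt_inj hn (by omega) (by omega)]; omega
        · rw [Ne, pt_inj hn (by omega) (by omega)]; omega
      · rw [h2, swap_apply_left]
    · simp only [cyc, Perm.coe_mul, Function.comp_apply]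
      rw [h3 (k + 1) (by omega) (by omega), swap_apply_right]
    · simp only [cyc, Perm.coe_mul, Function.comp_apply]
      rw [h3 i (by omega) hin, swap_apply_of_ne_of_ne]
      · rw [Ne, pt_inj hn (by omega) (by omega)]; omega
      · rw [Ne, pt_inj hn (by omega) (by omega)]; omega

lemma good_cyc (hn : 0 < n) (k : ℕ) (hk : k < n) : Good k (cyc hn k) := by
  obtain ⟨h1, h2, h3⟩ := cyc_spec hn k hk
  -- invariant functions are constant on `0, …, k`
  have hconst : ∀ c ∈ Inv (cyc hn k), ∀ i, i ≤ k → c (pt hn i) = c (pt hn 0) := by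
    intro c hc i
    induction i with
    | zero => intro _; rfl
    | succ i ih =>
      intro hi
      rw [← ih (by omega), ← h1 i (by omega)]
      exact hc _
  set L : Inv (cyc hn k) →ₗ[ℝ] (Fin (n - k) → ℝ) :=
    { toFun := fun c j => c.1 (pt hn (j + k))
      map_add' := fun a b => rfl
      map_smul' := fun r a => rfl } with hL
  have hinj : Function.Injective L := by
    rw [← LinearMap.ker_eq_bot, LinearMap.ker_eq_bot']
    intro c hc
    have h4 : ∀ i, k ≤ i → i < n → c.1 (pt hn i) = 0 := by
      intro i hi hin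
      have := congrFun hc ⟨i - k, by omega⟩
      simp only [hL, LinearMap.coe_mk, AddHom.coe_mk, Pi.zero_apply] at this
      rwa [Nat.sub_add_cancel hi] at this
    ext a
    by_cases ha : k ≤ (a : ℕ)
    · have := h4 a ha a.2
      rwa [pt_self] at this
    · have h5 := hconst c.1 c.2 a (by omega)
      have h6 := hconst c.1 c.2 k le_rfl
      rw [pt_self] at h5
      rw [h5, ← h6]
      exact h4 k le_rfl hk
  have h4 := LinearMap.finrank_le_finrank_of_injective hinj
  simp at h4
  unfold Good
  omega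

lemma cyc_support_subset (hn : 0 < n) (k : ℕ) (hk : k < n) :
    (cyc hn k).support ⊆ (Finset.range (k + 1)).image (pt hn) := by
  intro a ha
  rw [Perm.mem_support] at ha
  by_contra hcon
  apply ha
  have h1 : k < (a : ℕ) := by
    by_contra hlt
    apply hcon
    rw [Finset.mem_image]
    exact ⟨a, by simp; omega, pt_self hn a⟩
  have := (cyc_spec hn k hk).2.2 a h1 a.2
  rwa [pt_self] at this

lemma card_cyc_support_le (hn : 0 < n) (k : ℕ) (hk : k < n) :
    (cyc hn k).support.card ≤ k + 1 := by
  refine (Finset.card_le_card (cyc_support_subset hn k hk)).trans ?_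
  exact Finset.card_image_le.trans (by simp)

lemma card_cyc_support (hn : 0 < n) (k : ℕ) (hk : k < n) (hk0 : 0 < k) :
    (cyc hn k).support.card = k + 1 := by
  obtain ⟨h1, h2, h3⟩ := cyc_spec hn k hk
  have : (cyc hn k).support = (Finset.range (k + 1)).image (pt hn) := by
    refine Finset.Subset.antisymm (cyc_support_subset hn k hk) ?_
    intro a ha
    rw [Finset.mem_image] at ha
    obtain ⟨i, hi, rfl⟩ := ha
    rw [Finset.mem_range] at hi
    rw [Perm.mem_support]
    rcases Nat.lt_succ_iff_lt_or_eq.1 hi with hi | rfl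
    · rw [h1 i hi, Ne, pt_inj hn (by omega) (by omega)]; omega
    · rw [h2, Ne, pt_inj hn (by omega) (by omega)]; omega
  rw [this, Finset.card_image_of_injOn, Finset.card_range]
  intro i hi j hj hij
  simp only [Finset.coe_range, Set.mem_Iio] at hi hj
  exact (pt_inj hn (by omega) (by omega)).1 hij

lemma cyc_isCycle (hn : 0 < n) (k : ℕ) (hk : k < n) (hk0 : 0 < k) : (cyc hn k).IsCycle := by
  obtain ⟨h1, h2, h3⟩ := cyc_spec hn k hk
  have hpow : ∀ i, i ≤ k → (cyc hn k ^ i) (pt hn 0) = pt hn i := by
    intro i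
    induction i with
    | zero => intro _; rfl
    | succ i ih =>
      intro hi
      rw [pow_succ', Perm.mul_apply, ih (by omega), h1 i (by omega)]
  refine ⟨pt hn 0, ?_, ?_⟩
  · rw [h1 0 hk0, Ne, pt_inj hn (by omega) (by omega)]; omega
  · intro y hy
    have := cyc_support_subset hn k hk (Perm.mem_support.2 hy)
    rw [Finset.mem_image] at this
    obtain ⟨i, hi, rfl⟩ := this
    rw [Finset.mem_range] at hi
    exact ⟨i, by rw [zpow_natCast]; exact hpow i (by omega)⟩

end Pool.Agent.OG88
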