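import Pool.Agent.OG88.Tau
import Pool.Agent.OG88.Rank

/-!
Upper bounds for the averages `tau`.
-/

namespace Pool.Agent.OG88

open Equiv Finset

variable {n : ℕ} {V : Type*} [NormedAddCommGroup V] [InnerProductSpace ℝ V]

/-- Replacing a point outside the support. -/
lemma tau_swap_fresh (R : Perm (Fin n) →* Module.End ℝ V) (v : V) {π : Perm (Fin n)}
    {p s s' : Fin n} (hs : π s = s) (hs' : π s' = s') (hsp : s ≠ p) (hsp' : s' ≠ p) (j : ℕ) :
    tau R v (swap p s * π) p j = tau R v (swap p s' * π) p j := by
  have hcomm : swap s s' * π * (swap s s')⁻¹ = π := by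
    ext i
    simp only [swap_inv, Perm.coe_mul, Function.comp_apply]
    by_cases h1 : i = s
    · subst h1; rw [swap_apply_left, hs', swap_apply_right, hs]
    · by_cases h2 : i = s'
      · subst h2; rw [swap_apply_right, hs, swap_apply_left, hs']
      · rw [swap_apply_of_ne_of_ne h1 h2, swap_apply_of_ne_of_ne]
        · intro h3; exact h1 (π.injective (by rw [h3, hs]))
        · intro h3; exact h2 (π.injective (by rw [h3, hs']))
  have h := tau_conj R v (swap p s * π) (swap s s') p j
  have h1 : swap s s' p = p := swap_apply_of_ne_of_ne hsp.symm hsp'.symm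
  have h2 : swap s s' * (swap p s * π) * (swap s s')⁻¹ = swap p s' * π := by
    have h3 : swap s s' * (swap p s * π) * (swap s s')⁻¹
        = (swap s s' * swap p s * (swap s s')⁻¹) * (swap s s' * π * (swap s s')⁻¹) := by
      group
    rw [h3, hcomm, ← Equiv.swap_apply_apply, h1, swap_apply_left]
  rw [h1, h2] at h
  exact h.symm

/-- Replacing a marked point outside the support. -/
lemma tau_fresh (R : Perm (Fin n) →* Module.End ℝ V) (v : V) {π : Perm (Fin n)}
    {p q : Fin n} (hp : π p = p) (hq : π q = q) (j : ℕ) :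
    tau R v π q j = tau R v π p j := by
  have hcomm : swap p q * π * (swap p q)⁻¹ = π := by
    ext i
    simp only [swap_inv, Perm.coe_mul, Function.comp_apply]
    by_cases h1 : i = p
    · subst h1; rw [swap_apply_left, hq, swap_apply_right, hp]
    · by_cases h2 : i = q
      · subst h2; rw [swap_apply_right, hp, swap_apply_left, hq]
      · rw [swap_apply_of_ne_of_ne h1 h2, swap_apply_of_ne_of_ne]
        · intro h3; exact h1 (π.injective (by rw [h3, hp]))
        · intro h3; exact h2 (π.injective (by rw [h3, hq]))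
  have h := tau_conj R v π (swap p q) p j
  rw [swap_apply_left, hcomm] at h
  exact h

lemma tau_bound (hn : 0 < n) {R : Perm (Fin n) →* Module.End ℝ V} {v : V}
    {χ : Perm (Fin n) → ℝ} (hR : Orth R) (hs : IsState R v χ) {x K : ℝ} (hx : 0 < x)
    (hxn : x ≤ n) {S e : ℕ} (hS : S < n)
    (h0 : ∀ π p j, j ≤ e → |tau R v π p j| ≤ x ^ j)
    (hK : ((n : ℝ) + S) * (n * (1 + S * n / x ^ 2)) ≤ K * ((n : ℝ) - S) ^ 2) :
    ∀ l (π : Perm (Fin n)), π.support.card ≤ S → Good l π → ∀ p j, j + l ≤ e →
      |tau R v π p j| ≤ K ^ l * (x ^ j * (x / n) ^ l) := by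
  have hn0 : (0 : ℝ) < n := by exact_mod_cast hn
  have hnS : (0 : ℝ) < (n : ℝ) - S := by
    have : (S : ℝ) < n := by exact_mod_cast hS
    linarith
  have hS0 : (0 : ℝ) ≤ S := Nat.cast_nonneg _
  set β : ℝ := S * n / x ^ 2 with hβ
  have hβ0 : 0 ≤ β := by positivity
  have hK1 : n * (1 + β) ≤ K * ((n : ℝ) - S) := by
    have h1 : ((n : ℝ) - S) * (n * (1 + β)) ≤ ((n : ℝ) + S) * (n * (1 + β)) := by
      have : 0 ≤ (n : ℝ) * (1 + β) := by positivity
      nlinarith
    have h2 : ((n : ℝ) - S) * (n * (1 + β)) ≤ ((n : ℝ) - S) * (K * ((n : ℝ) - S)) := by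
      nlinarith
    exact le_of_mul_le_mul_left h2 hnS
  have hK0 : 1 ≤ K := by
    have h1 : ((n : ℝ) - S) ≤ n * (1 + β) := by nlinarith
    have h2 : ((n : ℝ) - S) * 1 ≤ ((n : ℝ) - S) * K := by linarith
    exact le_of_mul_le_mul_left h2 hnS
  have hKpos : 0 < K := by linarith
  intro l
  induction l using Nat.strong_induction_on with
  | _ l IH =>
  intro π hπS hπ p j hjl
  rcases l with _ | m
  · simpa using h0 π p j (by omega)
  -- the case of a moved point, with a better constant
  have moved : ∀ q ∈ π.support, ∀ i, i + (m + 1) ≤ e →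
      |tau R v π q i| * ((n : ℝ) - S) ≤ n * (1 + β) * (K ^ m * (x ^ i * (x / n) ^ (m + 1))) := by
    intro q hq i hi
    rw [Perm.mem_support] at hq
    set s₀ := π⁻¹ q with hs₀
    have hπs₀ : π s₀ = q := by simp [hs₀]
    have hs₀q : s₀ ≠ q := by
      intro h
      apply hq
      rw [h] at hπs₀
      exact hπs₀
    set π' := swap q s₀ * π with hπ'
    have hπ's₀ : π' s₀ = s₀ := by
      simp only [hπ', Perm.coe_mul, Function.comp_apply]
      rw [hπs₀, swap_apply_left]
    have hback : swap q s₀ * π' = π := by
      rw [hπ', ← mul_assoc, swap_mul_self, one_mul]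
    have hsupp : π'.support ⊆ π.support := by
      intro y hy
      rw [Perm.mem_support] at hy ⊢
      intro h
      apply hy
      simp only [hπ', Perm.coe_mul, Function.comp_apply]
      rw [h, swap_apply_of_ne_of_ne]
      · rintro rfl; exact hq h
      · rintro rfl; exact hs₀q (h.symm.trans hπs₀)
    have hqs : q ∈ π.support := Perm.mem_support.2 hq
    have hins : insert q π'.support ⊆ π.support := by
      intro y hy
      rcases Finset.mem_insert.1 hy with rfl | hy
      · exact hqs
      · exact hsupp hy
    have hcard : (insert q π'.support).card ≤ S := (Finset.card_le_card hins).trans hπS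
    -- the recursion for `π'`
    have hrec := tau_succ hR v π' q i
    have hsplit : univ.erase q = (insert q π'.support)ᶜ ∪ (π'.support.erase q) := by
      ext y
      simp only [Finset.mem_erase, Finset.mem_univ, and_true, Finset.mem_union,
        Finset.mem_compl, Finset.mem_insert, Perm.mem_support]
      tauto
    have hdisj : Disjoint ((insert q π'.support)ᶜ) (π'.support.erase q) := by
      rw [Finset.disjoint_left]
      intro y hy hy'
      simp only [Finset.mem_compl, Finset.mem_insert, Finset.mem_erase] at hy hy'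
      tauto
    rw [hsplit, Finset.sum_union hdisj] at hrec
    have hfresh : ∑ s ∈ (insert q π'.support)ᶜ, tau R v (swap q s * π') q i
        = ((n : ℝ) - (insert q π'.support).card) * tau R v π q i := by
      have h1 : ∀ s ∈ (insert q π'.support)ᶜ, tau R v (swap q s * π') q i = tau R v π q i := by
        intro s hs'
        simp only [Finset.mem_compl, Finset.mem_insert, not_or, Perm.mem_support, not_not] at hs'
        rw [tau_swap_fresh R v hs'.2 hπ's₀ hs'.1 hs₀q, hback]
      rw [Finset.sum_congr rfl h1, Finset.sum_const, nsmul_eq_mul, Finset.card_compl]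
      rw [Nat.cast_sub (Finset.card_le_univ _)]
      simp
    rw [hfresh] at hrec
    -- bounds
    have hb1 : |tau R v π' q (i + 1)| ≤ K ^ m * (x ^ (i + 1) * (x / n) ^ m) :=
      IH m (by omega) π' ((Finset.card_le_card hsupp).trans hπS) (hπ.swap_mul q s₀) q (i + 1)
        (by omega)
    have hb2 : ∀ s ∈ π'.support.erase q, |tau R v (swap q s * π') q i|
        ≤ K ^ (m - 1) * (x ^ i * (x / n) ^ (m - 1)) := by
      intro s hs'
      rw [Finset.mem_erase] at hs'
      refine IH (m - 1) (by omega) _ ?_ ((hπ.swap_mul q s₀).swap_mul' q s) q i (by omega)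
      refine (Finset.card_le_card ?_).trans hπS
      intro y hy
      rw [Perm.mem_support] at hy
      by_contra hcon
      apply hy
      have hyq : y ≠ q := by rintro rfl; exact hcon hqs
      have hys : y ≠ s := by rintro rfl; exact hcon (hsupp hs'.2)
      have hy' : π' y = y := by
        by_contra h
        exact hcon (hsupp (Perm.mem_support.2 h))
      rw [Perm.mul_apply, hy', swap_apply_of_ne_of_ne hyq hys]
    have hb3 : |∑ s ∈ π'.support.erase q, tau R v (swap q s * π') q i|
        ≤ S * (K ^ (m - 1) * (x ^ i * (x / n) ^ (m - 1))) := by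
      refine (Finset.abs_sum_le_sum_abs _ _).trans ?_
      refine (Finset.sum_le_sum hb2).trans ?_
      rw [Finset.sum_const, nsmul_eq_mul]
      refine mul_le_mul_of_nonneg_right ?_ (by positivity)
      have : (π'.support.erase q).card ≤ S :=
        (Finset.card_le_card ((Finset.erase_subset _ _).trans (Finset.subset_insert q _))).trans
          hcard
      exact_mod_cast this
    have hb4 : S * (K ^ (m - 1) * (x ^ i * (x / n) ^ (m - 1)))
        ≤ n * β * (K ^ m * (x ^ i * (x / n) ^ (m + 1))) := by
      rcases m with _ | m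
      · simp only [Nat.zero_sub, pow_zero, one_mul, mul_one, zero_add, pow_one]
        have h1 : n * β * (x ^ i * (x / n)) = S * x ^ i * (n / x) := by
          rw [hβ]; field_simp
        rw [h1]
        have h2 : 1 ≤ (n : ℝ) / x := (one_le_div hx).2 hxn
        have h3 : 0 ≤ (S : ℝ) * x ^ i := by positivity
        nlinarith
      · simp only [Nat.add_sub_cancel]
        have h1 : n * β * (K ^ (m + 1) * (x ^ i * (x / n) ^ (m + 1 + 1)))
            = S * (K ^ (m + 1) * (x ^ i * (x / n) ^ m)) := by
          rw [hβ, pow_succ (x / n) (m + 1), pow_succ (x / n) m]; field_simp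
        rw [h1]
        have h2 : K ^ m ≤ K ^ (m + 1) := pow_le_pow_right₀ hK0 (by omega)
        have h3 : 0 ≤ (x ^ i * (x / n) ^ m) := by positivity
        have h4 := mul_le_mul_of_nonneg_right h2 h3
        exact mul_le_mul_of_nonneg_left h4 hS0
    have hb5 : K ^ m * (x ^ (i + 1) * (x / n) ^ m)
        = n * (K ^ m * (x ^ i * (x / n) ^ (m + 1))) := by
      rw [pow_succ (x / n) m, pow_succ x i]; field_simp
    have hcardR : ((insert q π'.support).card : ℝ) ≤ S := by exact_mod_cast hcard
    have hmain : |((n : ℝ) - (insert q π'.support).card) * tau R v π q i|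
        ≤ n * (1 + β) * (K ^ m * (x ^ i * (x / n) ^ (m + 1))) := by
      have : ((n : ℝ) - (insert q π'.support).card) * tau R v π q i
          = tau R v π' q (i + 1) - ∑ s ∈ π'.support.erase q, tau R v (swap q s * π') q i := by
        linarith
      rw [this]
      refine (abs_sub _ _).trans ?_
      calc _ ≤ K ^ m * (x ^ (i + 1) * (x / n) ^ m)
            + S * (K ^ (m - 1) * (x ^ i * (x / n) ^ (m - 1))) := add_le_add hb1 hb3
        _ ≤ n * (K ^ m * (x ^ i * (x / n) ^ (m + 1)))
            + n * β * (K ^ m * (x ^ i * (x / n) ^ (m + 1))) := by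
            rw [hb5]; exact add_le_add le_rfl hb4
        _ = _ := by ring
    rw [abs_mul, abs_of_nonneg (by linarith)] at hmain
    have h5 : |tau R v π q i| * ((n : ℝ) - S)
        ≤ ((n : ℝ) - (insert q π'.support).card) * |tau R v π q i| := by
      have := abs_nonneg (tau R v π q i)
      nlinarith
    linarith
  have hpos : 0 ≤ K ^ m * (x ^ j * (x / n) ^ (m + 1)) := by positivity
  by_cases hp : p ∈ π.support
  · have h1 := moved p hp j hjl
    have h2 : |tau R v π p j| * ((n : ℝ) - S)
        ≤ (K ^ (m + 1) * (x ^ j * (x / n) ^ (m + 1))) * ((n : ℝ) - S) := by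
      refine h1.trans ?_
      have h3 := mul_le_mul_of_nonneg_right hK1 hpos
      refine h3.trans (le_of_eq ?_)
      rw [pow_succ K m]; ring
    exact le_of_mul_le_mul_right h2 hnS
  · -- a fixed point
    have hpf : π p = p := by
      by_contra h
      exact hp (Perm.mem_support.2 h)
    have hne : π ≠ 1 := hπ.ne_one
    obtain ⟨q₀, hq₀⟩ : ∃ q, q ∈ π.support := by
      by_contra hcon
      push Not at hcon
      apply hne
      rw [← Perm.support_eq_empty_iff]
      exact Finset.eq_empty_of_forall_notMem hcon
    have hsum := tau_sum' hn hs π p j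
    have hsplit : (univ : Finset (Fin n)) = π.supportᶜ ∪ π.support := by
      rw [Finset.union_comm]; exact (Finset.union_compl _).symm
    have hdisj : Disjoint (π.supportᶜ) π.support := by
      rw [Finset.disjoint_left]; intro y hy; exact Finset.mem_compl.1 hy
    rw [hsplit, Finset.sum_union hdisj] at hsum
    have hfresh : ∑ q ∈ π.supportᶜ, tau R v π q j
        = ((n : ℝ) - π.support.card) * tau R v π p j := by
      have h1 : ∀ q ∈ π.supportᶜ, tau R v π q j = tau R v π p j := by
        intro q hq
        have hqf : π q = q := by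
          by_contra h
          exact (Finset.mem_compl.1 hq) (Perm.mem_support.2 h)
        exact tau_fresh R v hpf hqf j
      rw [Finset.sum_congr rfl h1, Finset.sum_const, nsmul_eq_mul, Finset.card_compl]
      rw [Nat.cast_sub (Finset.card_le_univ _)]
      simp
    rw [hfresh] at hsum
    have hcardR : (π.support.card : ℝ) ≤ S := by exact_mod_cast hπS
    -- bound for the sum over the support
    have hb1 : |∑ q ∈ π.support, tau R v π q j| * ((n : ℝ) - S)
        ≤ S * (n * (1 + β) * (K ^ m * (x ^ j * (x / n) ^ (m + 1)))) := by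
      have h1 : |∑ q ∈ π.support, tau R v π q j| ≤ ∑ q ∈ π.support, |tau R v π q j| :=
        Finset.abs_sum_le_sum_abs _ _
      have h2 : (∑ q ∈ π.support, |tau R v π q j|) * ((n : ℝ) - S)
          ≤ ∑ q ∈ π.support, n * (1 + β) * (K ^ m * (x ^ j * (x / n) ^ (m + 1))) := by
        rw [Finset.sum_mul]
        exact Finset.sum_le_sum (fun q hq => moved q hq j hjl)
      rw [Finset.sum_const, nsmul_eq_mul] at h2
      have h3 : 0 ≤ n * (1 + β) * (K ^ m * (x ^ j * (x / n) ^ (m + 1))) := by positivity
      nlinarith
    -- bound for the product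
    have hb2 : |(n : ℝ) * χ π * tau R v 1 p j| * ((n : ℝ) - S)
        ≤ n * (n * (1 + β) * (K ^ m * (x ^ j * (x / n) ^ (m + 1)))) := by
      have h1 := moved q₀ hq₀ 0 (by omega)
      rw [tau_zero hs, pow_zero, one_mul] at h1
      have h2 := h0 1 p j (by omega)
      rw [abs_mul, abs_mul, abs_of_pos hn0]
      have h3 : 0 ≤ |χ π| * ((n : ℝ) - S) := by positivity
      have h4 : |χ π| * ((n : ℝ) - S) * |tau R v 1 p j|
          ≤ n * (1 + β) * (K ^ m * (x / n) ^ (m + 1)) * x ^ j :=
        mul_le_mul h1 h2 (abs_nonneg _) (by positivity)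
      nlinarith
    have hmain : |((n : ℝ) - π.support.card) * tau R v π p j| * ((n : ℝ) - S)
        ≤ ((n : ℝ) + S) * (n * (1 + β)) * (K ^ m * (x ^ j * (x / n) ^ (m + 1))) := by
      have h1 : ((n : ℝ) - π.support.card) * tau R v π p j
          = (n : ℝ) * χ π * tau R v 1 p j - ∑ q ∈ π.support, tau R v π q j := by linarith
      rw [h1]
      have h2 := abs_sub ((n : ℝ) * χ π * tau R v 1 p j) (∑ q ∈ π.support, tau R v π q j)
      nlinarith
    rw [abs_mul, abs_of_nonneg (by linarith)] at hmain
    have h5 : |tau R v π p j| * ((n : ℝ) - S) ^ 2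
        ≤ (K ^ (m + 1) * (x ^ j * (x / n) ^ (m + 1))) * ((n : ℝ) - S) ^ 2 := by
      have h6 : |tau R v π p j| * ((n : ℝ) - S) ^ 2
          ≤ ((n : ℝ) - π.support.card) * |tau R v π p j| * ((n : ℝ) - S) := by
        have := abs_nonneg (tau R v π p j)
        have h7 : ((n : ℝ) - S) * |tau R v π p j|
            ≤ ((n : ℝ) - π.support.card) * |tau R v π p j| := by nlinarith
        nlinarith
      refine h6.trans (hmain.trans ?_)
      have h7 := mul_le_mul_of_nonneg_right hK hpos
      refine h7.trans (le_of_eq ?_)
      rw [pow_succ K m]; ring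
    exact le_of_mul_le_mul_right h5 (by positivity)

end Pool.Agent.OG88
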