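import Pool.Agent.OG88.Bound

/-!
Lower bound for the normalised eigenvalue of the class of odd cycles.
-/

namespace Pool.Agent.OG88

open Equiv Finset

variable {n : ℕ} {V : Type*} [NormedAddCommGroup V] [InnerProductSpace ℝ V]

lemma log_convex {a : ℕ → ℝ} {y : ℝ} (hy : 0 < y) (h0 : a 0 = 1) (hnn : ∀ i, 0 ≤ a i)
    (hlc : ∀ i, a (i + 1) ^ 2 ≤ a i * a (i + 2)) {e : ℕ} (he : a e ≤ y ^ e) :
    ∀ i ≤ e, a i ≤ y ^ i := by
  -- otherwise the normalised sequence increases from some point on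
  have step : ∀ i, a i ≤ y ^ i → y ^ (i + 1) < a (i + 1) →
      ∀ k, y ^ (i + 1 + k) < a (i + 1 + k) ∧ y * a (i + k) ≤ a (i + 1 + k) := by
    intro i hi1 hi2 k
    induction k with
    | zero =>
      refine ⟨hi2, ?_⟩
      have : y * a i ≤ y * y ^ i := mul_le_mul_of_nonneg_left hi1 hy.le
      have h2 : y * y ^ i = y ^ (i + 1) := by ring
      simp only [add_zero]
      linarith
    | succ k ih =>
      obtain ⟨h1, h2⟩ := ih
      have h3 := hlc (i + k)
      have h4 : i + k + 1 = i + 1 + k := by ring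
      have h5 : i + k + 2 = i + 1 + (k + 1) := by ring
      rw [h4, h5] at h3
      have h6 : 0 < a (i + 1 + k) := lt_trans (by positivity) h1
      have h7 : y * a (i + 1 + k) ≤ a (i + 1 + (k + 1)) := by
        have h8 : a (i + 1 + k) * (y * a (i + 1 + k)) ≤ a (i + 1 + k) * a (i + 1 + (k + 1)) := by
          have h9 := mul_le_mul_of_nonneg_left h3 hy.le
          have h10 := mul_le_mul_of_nonneg_right h2 (hnn (i + 1 + (k + 1)))
          nlinarith
        exact le_of_mul_le_mul_left h8 h6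
      refine ⟨?_, ?_⟩
      · have : y ^ (i + 1 + (k + 1)) = y * y ^ (i + 1 + k) := by ring
        rw [this]
        exact lt_of_lt_of_le (mul_lt_mul_of_pos_left h1 hy) h7
      · have : i + (k + 1) = i + 1 + k := by ring
        rw [this]; exact h7
  intro i
  induction i with
  | zero => intro _; simp [h0]
  | succ i ih =>
    intro hi
    by_contra hcon
    push Not at hcon
    have h1 := (step i (ih (by omega)) hcon (e - (i + 1))).1
    have h2 : i + 1 + (e - (i + 1)) = e := by omega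
    rw [h2] at h1
    linarith

lemma norm_X_le {R : Perm (Fin n) →* Module.End ℝ V} (hR : Orth R) (a : Fin n) (w : V) :
    ‖X R a w‖ ≤ n * ‖w‖ := by
  rw [X_apply]
  refine (norm_sum_le _ _).trans ?_
  rw [Finset.sum_congr rfl (fun s _ => hR.norm_eq _ _), Finset.sum_const, nsmul_eq_mul]
  refine mul_le_mul_of_nonneg_right ?_ (norm_nonneg _)
  have : (univ.erase a).card ≤ n := by
    refine (Finset.card_le_univ _).trans ?_
    simp
  exact_mod_cast this

lemma norm_X_pow_le {R : Perm (Fin n) →* Module.End ℝ V} (hR : Orth R) (a : Fin n) (i : ℕ) (w : V) :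
    ‖(X R a ^ i) w‖ ≤ (n : ℝ) ^ i * ‖w‖ := by
  induction i with
  | zero => simp
  | succ i ih =>
    rw [pow_succ', Module.End.mul_apply]
    refine (norm_X_le hR _ _).trans ?_
    have : (n : ℝ) ^ (i + 1) * ‖w‖ = n * ((n : ℝ) ^ i * ‖w‖) := by ring
    rw [this]
    exact mul_le_mul_of_nonneg_left ih (Nat.cast_nonneg _)

lemma mom_le (hn : 0 < n) {R : Perm (Fin n) →* Module.End ℝ V} (hR : Orth R) (v : V)
    (hv : ‖v‖ = 1) (i : ℕ) : mom R v i ≤ ((n : ℝ) ^ 2) ^ i := by
  unfold mom
  have h1 : ∀ b ∈ (univ : Finset (Fin n)), ‖(X R b ^ i) v‖ ^ 2 ≤ ((n : ℝ) ^ 2) ^ i := by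
    intro b _
    have := norm_X_pow_le hR b i v
    rw [hv, mul_one] at this
    calc ‖(X R b ^ i) v‖ ^ 2 ≤ ((n : ℝ) ^ i) ^ 2 := pow_le_pow_left₀ (norm_nonneg _) this 2
      _ = ((n : ℝ) ^ 2) ^ i := by rw [← pow_mul, ← pow_mul, mul_comm]
  have h2 := Finset.sum_le_sum h1
  rw [Finset.sum_const, nsmul_eq_mul] at h2
  simp only [Finset.card_univ, Fintype.card_fin] at h2
  have hn0 : (0 : ℝ) < n := by exact_mod_cast hn
  calc (n : ℝ)⁻¹ * ∑ b : Fin n, ‖(X R b ^ i) v‖ ^ 2
      ≤ (n : ℝ)⁻¹ * (n * ((n : ℝ) ^ 2) ^ i) := mul_le_mul_of_nonneg_left h2 (by positivity)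
    _ = _ := by field_simp

/-- One step of the chain. -/
lemma chain_step (hn : 0 < n) {R : Perm (Fin n) →* Module.End ℝ V} {v : V}
    (hR : Orth R) {x K : ℝ} {e : ℕ} (he : 2 * e < n)
    (hb : ∀ l (π : Perm (Fin n)), π.support.card ≤ 2 * e + 1 → Good l π → ∀ p j, j + l ≤ 2 * e →
      |tau R v π p j| ≤ K ^ l * (x ^ j * (x / n) ^ l))
    {k j : ℕ} (hkj : k + j + 1 = 2 * e) :
    tau R v (cyc hn k) (pt hn 0) (j + 1) - k * (K ^ (k - 1) * (x ^ j * (x / n) ^ (k - 1)))
      ≤ ((n : ℝ) - (k + 1)) * tau R v (cyc hn (k + 1)) (pt hn 0) j := by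
  set p := pt hn 0 with hp
  set U : Finset (Fin n) := (Finset.range (k + 1)).image (pt hn) with hU
  have hUcard : U.card = k + 1 := by
    rw [hU, Finset.card_image_of_injOn, Finset.card_range]
    intro a ha b hb' hab
    simp only [Finset.coe_range, Set.mem_Iio] at ha hb'
    exact (pt_inj hn (by omega) (by omega)).1 hab
  have hpU : p ∈ U := by
    rw [hU, Finset.mem_image]; exact ⟨0, by simp, rfl⟩
  have hsuppU := cyc_support_subset hn k (by omega)
  have hrec := tau_succ hR v (cyc hn k) p j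
  have hsplit : univ.erase p = Uᶜ ∪ U.erase p := by
    ext y
    simp only [Finset.mem_erase, Finset.mem_univ, and_true, Finset.mem_union,
      Finset.mem_compl]
    constructor
    · intro hy
      by_cases h : y ∈ U
      · exact Or.inr ⟨hy, h⟩
      · exact Or.inl h
    · rintro (hy | hy)
      · rintro rfl; exact hy hpU
      · exact hy.1
  have hdisj : Disjoint (Uᶜ) (U.erase p) := by
    rw [Finset.disjoint_left]
    intro y hy hy'
    exact (Finset.mem_compl.1 hy) (Finset.mem_of_mem_erase hy')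
  rw [hsplit, Finset.sum_union hdisj] at hrec
  have hk1U : pt hn (k + 1) ∉ U := by
    rw [hU, Finset.mem_image]
    rintro ⟨i, hi, h⟩
    rw [Finset.mem_range] at hi
    rw [pt_inj hn (by omega) (by omega)] at h
    omega
  have hfix : ∀ s, s ∉ U → cyc hn k s = s := by
    intro s hs
    by_contra h
    exact hs (hsuppU (Perm.mem_support.2 h))
  have hfresh : ∑ s ∈ Uᶜ, tau R v (swap p s * cyc hn k) p j
      = ((n : ℝ) - (k + 1)) * tau R v (cyc hn (k + 1)) p j := by
    have h1 : ∀ s ∈ Uᶜ, tau R v (swap p s * cyc hn k) p j = tau R v (cyc hn (k + 1)) p j := by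
      intro s hs
      have hs' : s ∉ U := Finset.mem_compl.1 hs
      exact tau_swap_fresh R v (hfix s hs') (hfix _ hk1U) (fun h => hs' (h ▸ hpU))
        (fun h => hk1U (h ▸ hpU)) j
    rw [Finset.sum_congr rfl h1, Finset.sum_const, nsmul_eq_mul, Finset.card_compl, hUcard]
    rw [Nat.cast_sub (by simp; omega)]
    simp
  rw [hfresh] at hrec
  have hb3 : ∑ s ∈ U.erase p, tau R v (swap p s * cyc hn k) p j
      ≤ k * (K ^ (k - 1) * (x ^ j * (x / n) ^ (k - 1))) := by
    have h1 : ∀ s ∈ U.erase p, tau R v (swap p s * cyc hn k) p j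
        ≤ K ^ (k - 1) * (x ^ j * (x / n) ^ (k - 1)) := by
      intro s hs
      refine (le_abs_self _).trans (hb (k - 1) _ ?_ ((good_cyc hn k (by omega)).swap_mul' p s) p j
        (by omega))
      have h2 : (swap p s * cyc hn k).support ⊆ U := by
        intro y hy
        rw [Perm.mem_support] at hy
        by_contra hcon
        apply hy
        rw [Perm.mul_apply, hfix y hcon, swap_apply_of_ne_of_ne]
        · rintro rfl; exact hcon hpU
        · rintro rfl; exact hcon (Finset.mem_of_mem_erase hs)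
      exact (Finset.card_le_card h2).trans (by rw [hUcard]; omega)
    refine (Finset.sum_le_sum h1).trans ?_
    rw [Finset.sum_const, nsmul_eq_mul, Finset.card_erase_of_mem hpU, hUcard]
    simp
  linarith

/-- The chain. -/
lemma chain_lower {n e : ℕ} (hen : 2 * e < n) {t : ℕ → ℝ} {K x : ℝ} (hK : 1 ≤ K) (hx : 0 < x)
    (ht0 : 0 ≤ t 0)
    (hstep : ∀ k j, k + j + 1 = 2 * e →
      t k - k * (K ^ (k - 1) * (x ^ j * (x / n) ^ (k - 1))) ≤ ((n : ℝ) - (k + 1)) * t (k + 1))
    (he : 1 ≤ e) :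
    t 0 - ((n : ℝ) / (n - 2 * e)) ^ (2 * e) * (e * (2 * e - 1)) * (K ^ (2 * e) * n * x ^ (2 * e - 2))
      ≤ t (2 * e) * (n : ℝ) ^ (2 * e) := by
  have hn0 : (0 : ℝ) < n := by
    have : 0 < n := by omega
    exact_mod_cast this
  have hne : (0 : ℝ) < (n : ℝ) - 2 * e := by
    have : ((2 * e : ℕ) : ℝ) < n := by exact_mod_cast hen
    push_cast at this
    linarith
  set r : ℝ := (n : ℝ) / (n - 2 * e) with hr
  have hr1 : 1 ≤ r := by
    rw [hr, one_le_div hne]
    have : (0 : ℝ) ≤ e := Nat.cast_nonneg _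
    linarith
  set B : ℝ := K ^ (2 * e) * n * x ^ (2 * e - 2) with hB
  have hB0 : 0 ≤ B := by positivity
  have key : ∀ k, k ≤ 2 * e →
      t 0 - r ^ k * ((k : ℝ) * (k - 1) / 2) * B ≤ t k * (n : ℝ) ^ k := by
    intro k
    induction k with
    | zero => intro _; simp
    | succ k ih =>
      intro hk
      have h1 := ih (by omega)
      have h2 := hstep k (2 * e - k - 1) (by omega)
      -- the error term
      have h3 : (k : ℝ) * (K ^ (k - 1) * (x ^ (2 * e - k - 1) * (x / n) ^ (k - 1))) * (n : ℝ) ^ k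
          ≤ k * B := by
        rcases k with _ | k
        · simp
        · have h4 : K ^ k ≤ K ^ (2 * e) := pow_le_pow_right₀ hK (by omega)
          have h5 : x ^ (2 * e - (k + 1) - 1) * (x / n) ^ k * (n : ℝ) ^ (k + 1)
              = n * x ^ (2 * e - 2) := by
            have h6 : 2 * e - 2 = (2 * e - (k + 1) - 1) + k := by omega
            rw [h6, div_pow, pow_succ (n : ℝ) k, pow_add x]
            field_simp
          have h7 : 0 ≤ (n : ℝ) * x ^ (2 * e - 2) := by positivity
          have h8 : (((k + 1 : ℕ) : ℝ) * (K ^ (k + 1 - 1) *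
              (x ^ (2 * e - (k + 1) - 1) * (x / n) ^ (k + 1 - 1))) * (n : ℝ) ^ (k + 1))
              = ((k + 1 : ℕ) : ℝ) * (K ^ k * (x ^ (2 * e - (k + 1) - 1) * (x / n) ^ k *
                (n : ℝ) ^ (k + 1))) := by
            simp only [Nat.add_sub_cancel]; ring
          rw [h8, h5]
          have h9 : K ^ k * ((n : ℝ) * x ^ (2 * e - 2)) ≤ B := by
            rw [hB]
            have := mul_le_mul_of_nonneg_right h4 h7
            linarith
          exact mul_le_mul_of_nonneg_left h9 (Nat.cast_nonneg _)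
      have hmul : (t k - k * (K ^ (k - 1) * (x ^ (2 * e - k - 1) * (x / n) ^ (k - 1)))) *
          (n : ℝ) ^ k ≤ (((n : ℝ) - (k + 1)) * t (k + 1)) * (n : ℝ) ^ k :=
        mul_le_mul_of_nonneg_right h2 (by positivity)
      have h10 : t k * (n : ℝ) ^ k - k * B
          ≤ ((n : ℝ) - (k + 1)) * (t (k + 1) * (n : ℝ) ^ k) := by
        have : (t k - k * (K ^ (k - 1) * (x ^ (2 * e - k - 1) * (x / n) ^ (k - 1)))) *
          (n : ℝ) ^ k = t k * (n : ℝ) ^ k - (k : ℝ) * (K ^ (k - 1) *
            (x ^ (2 * e - k - 1) * (x / n) ^ (k - 1))) * (n : ℝ) ^ k := by ring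
        rw [this] at hmul
        linarith
      have hk1 : (0 : ℝ) < (n : ℝ) - (k + 1) := by
        have : ((k + 1 : ℕ) : ℝ) < n := by exact_mod_cast (by omega : k + 1 < n)
        push_cast at this
        linarith
      set q : ℝ := (n : ℝ) / ((n : ℝ) - (k + 1)) with hq
      have hq1 : 1 ≤ q := by
        rw [hq, one_le_div hk1]
        have : (0 : ℝ) ≤ k := Nat.cast_nonneg _
        linarith
      have hqr : q ≤ r := by
        rw [hq, hr]
        apply div_le_div_of_nonneg_left hn0.le hne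
        have : ((k + 1 : ℕ) : ℝ) ≤ ((2 * e : ℕ) : ℝ) := by exact_mod_cast hk
        push_cast at this
        linarith
      have h11 : q * (t k * (n : ℝ) ^ k - k * B) ≤ t (k + 1) * (n : ℝ) ^ (k + 1) := by
        have := mul_le_mul_of_nonneg_left h10 (by positivity : 0 ≤ q)
        refine this.trans (le_of_eq ?_)
        rw [hq, pow_succ]
        field_simp
      refine le_trans ?_ h11
      have hrk : 1 ≤ r ^ k := one_le_pow₀ hr1
      have hk0 : (0 : ℝ) ≤ k := Nat.cast_nonneg _
      have hE : (0 : ℝ) ≤ (k : ℝ) * (k - 1) / 2 := by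
        rcases k with _ | k
        · simp
        · push_cast
          have : (0 : ℝ) ≤ k := Nat.cast_nonneg _
          have h : (0 : ℝ) ≤ ((k : ℝ) + 1) * k / 2 := by positivity
          linarith [h]
      have h12 : q * (t 0 - (r ^ k * ((k : ℝ) * (k - 1) / 2) + k) * B)
          ≤ q * (t k * (n : ℝ) ^ k - k * B) := by
        apply mul_le_mul_of_nonneg_left _ (by positivity)
        linarith
      refine le_trans ?_ h12
      have h13 : q * ((r ^ k * ((k : ℝ) * (k - 1) / 2) + k) * B)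
          ≤ r ^ (k + 1) * (((k + 1 : ℕ) : ℝ) * (((k + 1 : ℕ) : ℝ) - 1) / 2) * B := by
        have h14 : (r ^ k * ((k : ℝ) * (k - 1) / 2) + k) ≤
            r ^ k * (((k + 1 : ℕ) : ℝ) * (((k + 1 : ℕ) : ℝ) - 1) / 2) := by
          push_cast
          nlinarith
        have h15 : 0 ≤ (r ^ k * ((k : ℝ) * (k - 1) / 2) + k) * B := by positivity
        calc q * ((r ^ k * ((k : ℝ) * (k - 1) / 2) + k) * B)
            ≤ r * ((r ^ k * ((k : ℝ) * (k - 1) / 2) + k) * B) :=
              mul_le_mul_of_nonneg_right hqr h15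
          _ ≤ r * ((r ^ k * (((k + 1 : ℕ) : ℝ) * (((k + 1 : ℕ) : ℝ) - 1) / 2)) * B) := by
              apply mul_le_mul_of_nonneg_left _ (by linarith)
              exact mul_le_mul_of_nonneg_right h14 hB0
          _ = _ := by rw [pow_succ]; ring
      have h16 : t 0 ≤ q * t 0 := by nlinarith
      nlinarith
  have h := key (2 * e) le_rfl
  have h2 : (((2 * e : ℕ) : ℝ) * (((2 * e : ℕ) : ℝ) - 1) / 2) = (e : ℝ) * (2 * e - 1) := by
    push_cast; ring
  rw [h2] at h
  exact h

end Pool.Agent.OG88
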