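import Pool.Agent.OG88.Chain
import Mathlib.Analysis.Complex.ExponentialBounds
import Mathlib.Analysis.SpecialFunctions.Pow.Real

/-!
The class of cycles of odd length `2e+1` has normalised eigenvalues at least `-(4(2e+1)^2/n)^e`.
-/

namespace Pool.Agent.OG88

open Equiv Finset

variable {n : ℕ} {V : Type*} [NormedAddCommGroup V] [InnerProductSpace ℝ V]

/-- Choice of the scale. -/
lemma exists_scale {M A N : ℝ} {e : ℕ} (he : 1 ≤ e) (hM : 0 ≤ M) (hA : 0 < A) (hAN : A ≤ N)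
    (hN : 0 < N) (hMN : M ≤ (N ^ 2) ^ e) :
    ∃ y : ℝ, 0 < y ∧ A * N ≤ y ∧ y ≤ N ^ 2 ∧ M ≤ y ^ e ∧ (y = A * N ∨ M = y ^ e) := by
  set y₀ : ℝ := M ^ ((e : ℝ)⁻¹) with hy₀
  have h1 : y₀ ^ e = M := by
    rw [hy₀]
    exact Real.rpow_inv_natCast_pow hM (by omega)
  have h0 : 0 ≤ y₀ := Real.rpow_nonneg hM _
  have h2 : y₀ ≤ N ^ 2 := by
    rw [← h1] at hMN
    exact le_of_pow_le_pow_left₀ (by omega) (by positivity) hMN
  by_cases h : y₀ ≤ A * N
  · refine ⟨A * N, by positivity, le_rfl, by nlinarith, ?_, Or.inl rfl⟩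
    rw [← h1]
    exact pow_le_pow_left₀ h0 h e
  · push Not at h
    refine ⟨y₀, lt_trans (by positivity) h, h.le, h2, h1.ge, Or.inr h1.symm⟩

lemma exp_bound {a c : ℝ} (ha : 0 ≤ a) (m : ℕ) (h : a * m ≤ c) : (1 + a) ^ m ≤ Real.exp c := by
  have h1 : 1 + a ≤ Real.exp a := by linarith [Real.add_one_le_exp a]
  calc (1 + a) ^ m ≤ (Real.exp a) ^ m := pow_le_pow_left₀ (by linarith) h1 m
    _ = Real.exp (a * m) := by rw [← Real.exp_nat_mul]; ring_nf
    _ ≤ Real.exp c := Real.exp_le_exp.2 h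

lemma exp_five_thirds : Real.exp (5 / 3) ≤ 8 := by
  have h1 : Real.exp (5 / 3) ≤ Real.exp 2 := Real.exp_le_exp.2 (by norm_num)
  have h2 : Real.exp 2 = Real.exp 1 ^ 2 := by
    rw [← Real.exp_nat_mul]; norm_num
  have h3 := Real.exp_one_lt_d9
  have h4 : Real.exp 1 ^ 2 ≤ 2.7182818286 ^ 2 := pow_le_pow_left₀ (Real.exp_pos _).le h3.le 2
  have h5 : (2.7182818286 : ℝ) ^ 2 ≤ 8 := by norm_num
  linarith

lemma chi_lower {R : Perm (Fin n) →* Module.End ℝ V} {v : V}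
    {χ : Perm (Fin n) → ℝ} (hR : Orth R) (hs : IsState R v χ) {e : ℕ} (he : 1 ≤ e)
    (hn : 4 * (2 * e + 1) ^ 2 ≤ n) (hn0 : 0 < n) :
    -((4 * (2 * e + 1) ^ 2 / n : ℝ) ^ e) ≤ χ (cyc hn0 (2 * e)) := by
  -- notation
  set D : ℝ := 2 * e + 1 with hD
  set N : ℝ := (n : ℝ) with hN
  have heR : (1 : ℝ) ≤ e := by exact_mod_cast he
  have hD3 : 3 ≤ D := by rw [hD]; linarith
  have hND : 4 * D ^ 2 ≤ N := by
    rw [hD, hN]
    exact_mod_cast hn
  have hNpos : 0 < N := by nlinarith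
  have hSn : 2 * e + 1 < n := by nlinarith
  obtain ⟨y, hy0, hyA, hyN, hMy, hyor⟩ := exists_scale (M := mom R v e) (A := 4 * D ^ 2) (N := N)
    he (mom_nonneg R v e) (by positivity) hND hNpos (mom_le hn0 hR v hs.norm_eq e)
  set x : ℝ := Real.sqrt y with hx
  have hx0 : 0 < x := Real.sqrt_pos.2 hy0
  have hxx : x ^ 2 = y := Real.sq_sqrt hy0.le
  have hxn : x ≤ N := by
    rw [hx]
    exact Real.sqrt_le_iff.2 ⟨hNpos.le, hyN⟩
  have hmom : ∀ i ≤ e, mom R v i ≤ x ^ (2 * i) := by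
    intro i hi
    rw [pow_mul, hxx]
    exact log_convex hy0 (mom_zero hn0 R v hs.norm_eq) (mom_nonneg R v)
      (mom_sq_le hn0 hR v) hMy i hi
  have h0 : ∀ π p j, j ≤ 2 * e → |tau R v π p j| ≤ x ^ j := fun π p j hj =>
    tau_abs_le hn0 hR v hx0 hmom π p hj
  set K : ℝ := 1 + 4 / (3 * D) with hK
  have hK1 : 1 ≤ K := by
    rw [hK]
    have : 0 ≤ 4 / (3 * D) := by positivity
    linarith
  have hKcond : ((n : ℝ) + (2 * e + 1 : ℕ)) * (n * (1 + (2 * e + 1 : ℕ) * n / x ^ 2))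
      ≤ K * ((n : ℝ) - (2 * e + 1 : ℕ)) ^ 2 := by
    have h1 : ((2 * e + 1 : ℕ) : ℝ) = D := by rw [hD]; push_cast; ring
    rw [h1]
    change (N + D) * (N * (1 + D * N / x ^ 2)) ≤ K * (N - D) ^ 2
    have h2 : D * N / x ^ 2 ≤ 1 / (4 * D) := by
      rw [hxx, div_le_div_iff₀ hy0 (by positivity)]
      nlinarith
    have h3 : (N + D) * (N * (1 + D * N / x ^ 2)) ≤ (N + D) * (N * (1 + 1 / (4 * D))) := by
      apply mul_le_mul_of_nonneg_left _ (by linarith)
      apply mul_le_mul_of_nonneg_left _ hNpos.le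
      linarith
    refine h3.trans ?_
    have h4 : (N + D) * (N * (1 + 1 / (4 * D))) = (3 * (N + D) * N * (4 * D + 1)) / (12 * D) := by
      field_simp; ring
    have h5 : K * (N - D) ^ 2 = (4 * (3 * D + 4) * (N - D) ^ 2) / (12 * D) := by
      rw [hK]; field_simp; ring
    rw [h4, h5]
    apply div_le_div_of_nonneg_right _ (by positivity)
    nlinarith [mul_le_mul_of_nonneg_right hND hNpos.le, mul_pos hNpos (by linarith : 0 < D),
      mul_nonneg (mul_pos hNpos (by linarith : 0 < D)).le (by linarith : 0 ≤ D - 3),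
      pow_pos (by linarith : 0 < D) 3]
  have hb := tau_bound hn0 hR hs hx0 hxn hSn h0 hKcond
  -- the chain
  set t : ℕ → ℝ := fun k => tau R v (cyc hn0 k) (pt hn0 0) (2 * e - k) with ht
  have ht0 : t 0 = mom R v e := by
    simp only [ht, cyc, Nat.sub_zero]
    exact tau_one_even hn0 hR v _ e
  have htend : t (2 * e) = χ (cyc hn0 (2 * e)) := by
    simp only [ht, Nat.sub_self]
    exact tau_zero hs _ _
  have hchain := chain_lower (n := n) (e := e) (by omega) (t := t) hK1 hx0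
    (by rw [ht0]; exact mom_nonneg R v e)
    (by
      intro k j hkj
      have h1 := chain_step hn0 hR (by omega) hb (k := k) (j := j) hkj
      have h2 : 2 * e - k = j + 1 := by omega
      have h3 : 2 * e - (k + 1) = j := by omega
      simp only [ht, h2, h3]
      exact h1) he
  rw [ht0, htend] at hchain
  -- constants
  have hr : ((n : ℝ) / (n - 2 * e)) ≤ 1 + 1 / (3 * D) := by
    have h1 : (0 : ℝ) < (n : ℝ) - 2 * e := by
      have : 2 * (e : ℝ) ≤ D := by rw [hD]; linarith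
      change 0 < N - 2 * e
      nlinarith
    rw [div_le_iff₀ h1]
    change N ≤ (1 + 1 / (3 * D)) * (N - 2 * e)
    have h2 : (1 + 1 / (3 * D)) * (N - 2 * e) = (3 * D + 1) * (N - 2 * e) / (3 * D) := by
      field_simp
    rw [h2, le_div_iff₀ (by positivity)]
    have h3 : 2 * (e : ℝ) = D - 1 := by rw [hD]; ring
    rw [h3]
    nlinarith
  have hr0 : 0 ≤ ((n : ℝ) / (n - 2 * e)) := by
    have h1 : (0 : ℝ) ≤ (n : ℝ) - 2 * e := by
      have : 2 * (e : ℝ) ≤ D := by rw [hD]; linarith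
      change 0 ≤ N - 2 * e
      nlinarith
    positivity
  have hKpow : K ^ (2 * e) ≤ Real.exp (4 / 3) := by
    rw [hK]
    apply exp_bound (by positivity)
    rw [div_mul_eq_mul_div, div_le_div_iff₀ (by positivity) (by norm_num)]
    have : ((2 * e : ℕ) : ℝ) = D - 1 := by rw [hD]; push_cast; ring
    rw [this]; nlinarith
  have hrpow : ((n : ℝ) / (n - 2 * e)) ^ (2 * e) ≤ Real.exp (1 / 3) := by
    refine (pow_le_pow_left₀ hr0 hr _).trans ?_
    apply exp_bound (by positivity)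
    rw [div_mul_eq_mul_div, div_le_div_iff₀ (by positivity) (by norm_num)]
    have : ((2 * e : ℕ) : ℝ) = D - 1 := by rw [hD]; push_cast; ring
    rw [this]; nlinarith
  have hprod : ((n : ℝ) / (n - 2 * e)) ^ (2 * e) * K ^ (2 * e) ≤ 8 := by
    have h1 : Real.exp (1 / 3) * Real.exp (4 / 3) = Real.exp (5 / 3) := by
      rw [← Real.exp_add]; norm_num
    calc _ ≤ Real.exp (1 / 3) * Real.exp (4 / 3) :=
          mul_le_mul hrpow hKpow (by positivity) (Real.exp_pos _).le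
      _ ≤ 8 := by rw [h1]; exact exp_five_thirds
  have hC : ((n : ℝ) / (n - 2 * e)) ^ (2 * e) * (e * (2 * e - 1)) *
      (K ^ (2 * e) * n * x ^ (2 * e - 2)) ≤ 4 * D ^ 2 * N * y ^ (e - 1) := by
    have h1 : x ^ (2 * e - 2) = y ^ (e - 1) := by
      have : 2 * e - 2 = 2 * (e - 1) := by omega
      rw [this, pow_mul, hxx]
    rw [h1]
    have h2 : (e : ℝ) * (2 * e - 1) ≤ D ^ 2 / 2 := by rw [hD]; nlinarith
    have h3 : (0 : ℝ) ≤ (e : ℝ) * (2 * e - 1) := by
      have : (0 : ℝ) ≤ 2 * e - 1 := by linarith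
      positivity
    have h4 : ((n : ℝ) / (n - 2 * e)) ^ (2 * e) * K ^ (2 * e) * (e * (2 * e - 1))
        ≤ 8 * (D ^ 2 / 2) := mul_le_mul hprod h2 h3 (by norm_num)
    have h5 : 0 ≤ N * y ^ (e - 1) := by positivity
    have h6 := mul_le_mul_of_nonneg_right h4 h5
    calc _ = ((n : ℝ) / (n - 2 * e)) ^ (2 * e) * K ^ (2 * e) * (e * (2 * e - 1)) *
          (N * y ^ (e - 1)) := by rw [hN]; ring
      _ ≤ 8 * (D ^ 2 / 2) * (N * y ^ (e - 1)) := h6
      _ = _ := by ring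
  have hlow : mom R v e - 4 * D ^ 2 * N * y ^ (e - 1) ≤ χ (cyc hn0 (2 * e)) * N ^ (2 * e) := by
    linarith
  have hpow : y ^ e = y * y ^ (e - 1) := by
    rw [← pow_succ']; congr 1; omega
  have hfin : -((4 * D ^ 2 * N) ^ e) ≤ χ (cyc hn0 (2 * e)) * N ^ (2 * e) := by
    refine le_trans ?_ hlow
    rcases hyor with h | h
    · have h1 : (4 * D ^ 2 * N) ^ e = 4 * D ^ 2 * N * y ^ (e - 1) := by
        rw [← h, hpow]
      rw [h1]
      linarith [mom_nonneg R v e]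
    · have h1 : 0 ≤ (4 * D ^ 2 * N) ^ e := by positivity
      have h2 : 4 * D ^ 2 * N * y ^ (e - 1) ≤ y ^ e := by
        rw [hpow]
        exact mul_le_mul_of_nonneg_right hyA (by positivity)
      rw [h]
      linarith
  have h1 : -((4 * D ^ 2 / N) ^ e) = -((4 * D ^ 2 * N) ^ e) / N ^ (2 * e) := by
    rw [div_pow, mul_pow (4 * D ^ 2) N e, pow_mul N 2 e, ← pow_mul, two_mul, pow_add]
    field_simp
  rw [h1, div_le_iff₀ (by positivity)]
  exact hfin

end Pool.Agent.OG88
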