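import Pool.Agent.OG88.Basic

/-!
The averages `tau π p j` of `⟪R (g π g⁻¹) v, X (g p) ^ j v⟫` over `g`, where `X a` is the sum of the
transpositions moving `a`.
-/

namespace Pool.Agent.OG88

open Equiv Finset

variable {n : ℕ} {V : Type*} [NormedAddCommGroup V] [InnerProductSpace ℝ V]

open scoped RealInnerProductSpace

/-- Sum of the transpositions that move `a`. -/
noncomputable def X (R : Perm (Fin n) →* Module.End ℝ V) (a : Fin n) : Module.End ℝ V :=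
  ∑ s ∈ univ.erase a, R (swap a s)

lemma X_apply (R : Perm (Fin n) →* Module.End ℝ V) (a : Fin n) (x : V) :
    X R a x = ∑ s ∈ univ.erase a, R (swap a s) x := by
  unfold X; rw [LinearMap.sum_apply]

lemma X_symm {R : Perm (Fin n) →* Module.End ℝ V} (hR : Orth R) (a : Fin n) (x y : V) :
    ⟪X R a x, y⟫ = ⟪x, X R a y⟫ := by
  rw [X_apply, X_apply, sum_inner, inner_sum]
  refine Finset.sum_congr rfl (fun s _ => ?_)
  rw [hR.inner_left, swap_inv]

lemma X_pow_symm {R : Perm (Fin n) →* Module.End ℝ V} (hR : Orth R) (a : Fin n) (i : ℕ) (x y : V) :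
    ⟪(X R a ^ i) x, y⟫ = ⟪x, (X R a ^ i) y⟫ := by
  induction i generalizing x y with
  | zero => simp
  | succ i ih =>
    rw [pow_succ, Module.End.mul_apply, ih, X_symm hR, ← Module.End.mul_apply, ← pow_succ',
      ← pow_succ]

lemma X_mul_R (R : Perm (Fin n) →* Module.End ℝ V) (a : Fin n) (ρ : Perm (Fin n)) :
    X R (ρ a) * R ρ = R ρ * X R a := by
  unfold X
  rw [Finset.sum_mul, Finset.mul_sum]
  refine (Finset.sum_equiv ρ (fun s => ?_) (fun s _ => ?_)).symm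
  · simp [Finset.mem_erase]
  · rw [← map_mul, ← map_mul]
    congr 1
    rw [Equiv.swap_apply_apply]
    simp [mul_assoc]

lemma X_pow_mul_R (R : Perm (Fin n) →* Module.End ℝ V) (a : Fin n) (ρ : Perm (Fin n)) (i : ℕ) :
    X R (ρ a) ^ i * R ρ = R ρ * X R a ^ i := by
  induction i with
  | zero => simp
  | succ i ih =>
    rw [pow_succ, mul_assoc, X_mul_R, ← mul_assoc, ih, mul_assoc, ← pow_succ]

lemma norm_X_pow_R {R : Perm (Fin n) →* Module.End ℝ V} (hR : Orth R) (a : Fin n)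
    (ρ : Perm (Fin n)) (i : ℕ) (v : V) :
    ‖(X R a ^ i) (R ρ v)‖ = ‖(X R (ρ⁻¹ a) ^ i) v‖ := by
  have h := X_pow_mul_R R (ρ⁻¹ a) ρ i
  rw [show ρ (ρ⁻¹ a) = a by simp] at h
  rw [← Module.End.mul_apply, h, Module.End.mul_apply, hR.norm_eq]

/-- The basic averages. -/
noncomputable def tau (R : Perm (Fin n) →* Module.End ℝ V) (v : V) (π : Perm (Fin n)) (p : Fin n)
    (j : ℕ) : ℝ :=
  (n.factorial : ℝ)⁻¹ * ∑ g : Perm (Fin n), ⟪R (g * π * g⁻¹) v, (X R (g p) ^ j) v⟫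

lemma tau_succ {R : Perm (Fin n) →* Module.End ℝ V} (hR : Orth R) (v : V) (π : Perm (Fin n))
    (p : Fin n) (j : ℕ) :
    tau R v π p (j + 1) = ∑ s ∈ univ.erase p, tau R v (swap p s * π) p j := by
  unfold tau
  rw [← Finset.mul_sum, Finset.sum_comm]
  congr 1
  refine Finset.sum_congr rfl (fun g _ => ?_)
  rw [pow_succ', Module.End.mul_apply, ← X_symm hR, X_apply, sum_inner]
  refine (Finset.sum_equiv g (fun s => ?_) (fun s _ => ?_)).symm
  · simp [Finset.mem_erase]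
  · congr 1
    rw [← Module.End.mul_apply, ← map_mul, Equiv.swap_apply_apply]
    simp [mul_assoc]

lemma tau_conj (R : Perm (Fin n) →* Module.End ℝ V) (v : V) (π h : Perm (Fin n))
    (p : Fin n) (j : ℕ) : tau R v (h * π * h⁻¹) (h p) j = tau R v π p j := by
  unfold tau
  congr 1
  refine Fintype.sum_equiv (Equiv.mulRight h) _ _ (fun g => ?_)
  simp [mul_assoc]

/-- `v` is a unit vector and an eigenvector of all class sums, with normalised eigenvalues `χ`. -/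
structure IsState (R : Perm (Fin n) →* Module.End ℝ V) (v : V) (χ : Perm (Fin n) → ℝ) : Prop where
  norm_eq : ‖v‖ = 1
  eig : ∀ π, Z R π v = ((n.factorial : ℝ) * χ π) • v

lemma fact_ne (n : ℕ) : (n.factorial : ℝ) ≠ 0 := by positivity

lemma tau_zero {R : Perm (Fin n) →* Module.End ℝ V} {v : V} {χ : Perm (Fin n) → ℝ}
    (hs : IsState R v χ) (π : Perm (Fin n)) (p : Fin n) : tau R v π p 0 = χ π := by
  unfold tau
  have h1 : ∑ g : Perm (Fin n), ⟪R (g * π * g⁻¹) v, (X R (g p) ^ 0) v⟫ = ⟪Z R π v, v⟫ := by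
    unfold Z
    rw [LinearMap.sum_apply, sum_inner]
    simp
  rw [h1, hs.eig, inner_smul_left, real_inner_self_eq_norm_sq, hs.norm_eq]
  have := fact_ne n
  simp
  field_simp

lemma tau_sum {R : Perm (Fin n) →* Module.End ℝ V} {v : V} {χ : Perm (Fin n) → ℝ}
    (hs : IsState R v χ) (π : Perm (Fin n)) (j : ℕ) :
    ∑ q, tau R v π q j = χ π * ⟪v, ∑ b, (X R b ^ j) v⟫ := by
  unfold tau
  rw [← Finset.mul_sum, Finset.sum_comm]
  have h1 : ∀ g : Perm (Fin n), ∑ q, ⟪R (g * π * g⁻¹) v, (X R (g q) ^ j) v⟫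
      = ⟪R (g * π * g⁻¹) v, ∑ b, (X R b ^ j) v⟫ := by
    intro g
    rw [inner_sum]
    exact Fintype.sum_equiv g _ _ (fun q => rfl)
  rw [Finset.sum_congr rfl (fun g _ => h1 g), ← sum_inner]
  have h2 : ∑ g : Perm (Fin n), R (g * π * g⁻¹) v = Z R π v := by
    unfold Z; rw [LinearMap.sum_apply]
  rw [h2, hs.eig, inner_smul_left]
  have := fact_ne n
  simp
  field_simp

lemma avg_apply (hn : 0 < n) (F : Fin n → ℝ) (p : Fin n) :
    (n.factorial : ℝ)⁻¹ * ∑ g : Perm (Fin n), F (g p) = (n : ℝ)⁻¹ * ∑ b, F b := by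
  have h1 : ∀ q : Fin n, ∑ g : Perm (Fin n), F (g q) = ∑ g : Perm (Fin n), F (g p) := by
    intro q
    refine Fintype.sum_equiv (Equiv.mulRight (swap p q)) _ _ (fun g => ?_)
    simp
  have h2 : (n : ℝ) * ∑ g : Perm (Fin n), F (g p) = (n.factorial : ℝ) * ∑ b, F b := by
    have h3 : ∑ q : Fin n, ∑ g : Perm (Fin n), F (g q) = (n : ℝ) * ∑ g : Perm (Fin n), F (g p) := by
      rw [Finset.sum_congr rfl (fun q _ => h1 q)]
      simp
    have h4 : ∑ q : Fin n, ∑ g : Perm (Fin n), F (g q) = (n.factorial : ℝ) * ∑ b, F b := by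
      rw [Finset.sum_comm]
      have : ∀ g : Perm (Fin n), ∑ q, F (g q) = ∑ b, F b := fun g =>
        Fintype.sum_equiv g _ _ (fun q => rfl)
      rw [Finset.sum_congr rfl (fun g _ => this g)]
      simp [Fintype.card_perm]
    rw [← h3, h4]
  have hn' : (n : ℝ) ≠ 0 := by positivity
  have := fact_ne n
  field_simp
  linarith

/-- The moments of the vector `v`. -/
noncomputable def mom (R : Perm (Fin n) →* Module.End ℝ V) (v : V) (i : ℕ) : ℝ :=
  (n : ℝ)⁻¹ * ∑ b : Fin n, ‖(X R b ^ i) v‖ ^ 2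

lemma mom_nonneg (R : Perm (Fin n) →* Module.End ℝ V) (v : V) (i : ℕ) : 0 ≤ mom R v i := by
  unfold mom; positivity

lemma mom_zero (hn : 0 < n) (R : Perm (Fin n) →* Module.End ℝ V) (v : V) (hv : ‖v‖ = 1) :
    mom R v 0 = 1 := by
  unfold mom
  have hn' : (n : ℝ) ≠ 0 := by positivity
  simp [hv, hn']

lemma mom_sq_le (hn : 0 < n) {R : Perm (Fin n) →* Module.End ℝ V} (hR : Orth R) (v : V) (i : ℕ) :
    mom R v (i + 1) ^ 2 ≤ mom R v i * mom R v (i + 2) := by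
  unfold mom
  have h1 : ∀ b : Fin n, ‖(X R b ^ (i + 1)) v‖ ^ 2 ≤ ‖(X R b ^ i) v‖ * ‖(X R b ^ (i + 2)) v‖ := by
    intro b
    rw [← real_inner_self_eq_norm_sq]
    have h2 : ⟪(X R b ^ (i + 1)) v, (X R b ^ (i + 1)) v⟫
        = ⟪(X R b ^ i) v, (X R b ^ (i + 2)) v⟫ := by
      have h4 : (X R b ^ (i + 2)) v = X R b ((X R b ^ (i + 1)) v) := by
        rw [pow_succ' (X R b) (i + 1), Module.End.mul_apply]
      rw [h4, ← X_symm hR, ← Module.End.mul_apply, ← pow_succ']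
    rw [h2]
    exact real_inner_le_norm _ _
  have h3 : (∑ b : Fin n, ‖(X R b ^ (i + 1)) v‖ ^ 2) ^ 2
      ≤ (∑ b : Fin n, ‖(X R b ^ i) v‖ ^ 2) * ∑ b : Fin n, ‖(X R b ^ (i + 2)) v‖ ^ 2 := by
    refine le_trans ?_ (Finset.sum_mul_sq_le_sq_mul_sq _ _ _)
    exact pow_le_pow_left₀ (by positivity) (Finset.sum_le_sum (fun b _ => h1 b)) 2
  have hn' : (0 : ℝ) < n := by positivity
  have h4 : 0 ≤ ((n : ℝ)⁻¹) ^ 2 := by positivity
  nlinarith [mul_le_mul_of_nonneg_left h3 h4]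

lemma tau_abs_le (hn : 0 < n) {R : Perm (Fin n) →* Module.End ℝ V} (hR : Orth R) (v : V)
    {x : ℝ} (hx : 0 < x) {e : ℕ} (hm : ∀ i ≤ e, mom R v i ≤ x ^ (2 * i)) (π : Perm (Fin n))
    (p : Fin n) {j : ℕ} (hj : j ≤ 2 * e) : |tau R v π p j| ≤ x ^ j := by
  -- average of products of norms
  have key : ∀ i k : ℕ, (n.factorial : ℝ)⁻¹ *
      ∑ g : Perm (Fin n), ‖(X R ((g * π * g⁻¹)⁻¹ (g p)) ^ i) v‖ * ‖(X R (g p) ^ k) v‖ * 2
      ≤ x⁻¹ ^ (i : ℤ) * x ^ (k : ℤ) * mom R v i + x ^ (i : ℤ) * x⁻¹ ^ (k : ℤ) * mom R v k := by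
    intro i k
    have h1 : ∀ g : Perm (Fin n),
        ‖(X R ((g * π * g⁻¹)⁻¹ (g p)) ^ i) v‖ * ‖(X R (g p) ^ k) v‖ * 2
        ≤ x⁻¹ ^ (i : ℤ) * x ^ (k : ℤ) * ‖(X R (g (π⁻¹ p)) ^ i) v‖ ^ 2
          + x ^ (i : ℤ) * x⁻¹ ^ (k : ℤ) * ‖(X R (g p) ^ k) v‖ ^ 2 := by
      intro g
      have h2 : (g * π * g⁻¹)⁻¹ (g p) = g (π⁻¹ p) := by simp [mul_assoc]
      rw [h2]
      set A := ‖(X R (g (π⁻¹ p)) ^ i) v‖
      set B := ‖(X R (g p) ^ k) v‖
      have hu : 0 < x⁻¹ ^ (i : ℤ) * x ^ (k : ℤ) := by positivity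
      have hw : x ^ (i : ℤ) * x⁻¹ ^ (k : ℤ) = (x⁻¹ ^ (i : ℤ) * x ^ (k : ℤ))⁻¹ := by
        rw [mul_inv, inv_zpow, inv_zpow, inv_inv]
      rw [hw]
      set u := x⁻¹ ^ (i : ℤ) * x ^ (k : ℤ)
      have h3 : 0 ≤ u⁻¹ * (u * A - B) ^ 2 := by positivity
      have h4 : u⁻¹ * (u * A - B) ^ 2 = u * A ^ 2 + u⁻¹ * B ^ 2 - A * B * 2 := by
        field_simp
        ring
      linarith
    have h5 := avg_apply hn (fun b => ‖(X R b ^ i) v‖ ^ 2) (π⁻¹ p)
    have h6 := avg_apply hn (fun b => ‖(X R b ^ k) v‖ ^ 2) p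
    have h7 : (0 : ℝ) ≤ (n.factorial : ℝ)⁻¹ := by positivity
    refine (mul_le_mul_of_nonneg_left (Finset.sum_le_sum (fun g _ => h1 g)) h7).trans ?_
    rw [Finset.sum_add_distrib, ← Finset.mul_sum, ← Finset.mul_sum]
    unfold mom
    rw [← h5, ← h6]
    apply le_of_eq
    ring
  have hbound : ∀ i k : ℕ, i ≤ e → k ≤ e → i + k = j → |tau R v π p j| ≤ x ^ j := by
    intro i k hi hk hik
    have h1 : ∀ g : Perm (Fin n), |⟪R (g * π * g⁻¹) v, (X R (g p) ^ j) v⟫|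
        ≤ ‖(X R ((g * π * g⁻¹)⁻¹ (g p)) ^ i) v‖ * ‖(X R (g p) ^ k) v‖ := by
      intro g
      rw [← hik, pow_add, Module.End.mul_apply, ← X_pow_symm hR, ← norm_X_pow_R hR]
      exact abs_real_inner_le_norm _ _
    have h2 : |tau R v π p j| * 2 ≤ (n.factorial : ℝ)⁻¹ *
      ∑ g : Perm (Fin n), ‖(X R ((g * π * g⁻¹)⁻¹ (g p)) ^ i) v‖ * ‖(X R (g p) ^ k) v‖ * 2 := by
      unfold tau
      rw [abs_mul, abs_of_nonneg (by positivity : (0 : ℝ) ≤ (n.factorial : ℝ)⁻¹), mul_assoc,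
        ← Finset.sum_mul]
      refine mul_le_mul_of_nonneg_left ?_ (by positivity)
      refine mul_le_mul_of_nonneg_right ?_ (by norm_num)
      exact (Finset.abs_sum_le_sum_abs _ _).trans (Finset.sum_le_sum (fun g _ => h1 g))
    have h3 := key i k
    have h4 : x⁻¹ ^ (i : ℤ) * x ^ (k : ℤ) * mom R v i ≤ x ^ j := by
      have h5 := hm i hi
      have h6 : 0 ≤ x⁻¹ ^ (i : ℤ) * x ^ (k : ℤ) := by positivity
      refine (mul_le_mul_of_nonneg_left h5 h6).trans (le_of_eq ?_)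
      rw [← hik]
      simp only [zpow_natCast]
      rw [inv_pow]
      field_simp
      ring
    have h7 : x ^ (i : ℤ) * x⁻¹ ^ (k : ℤ) * mom R v k ≤ x ^ j := by
      have h5 := hm k hk
      have h6 : 0 ≤ x ^ (i : ℤ) * x⁻¹ ^ (k : ℤ) := by positivity
      refine (mul_le_mul_of_nonneg_left h5 h6).trans (le_of_eq ?_)
      rw [← hik]
      simp only [zpow_natCast]
      rw [inv_pow]
      field_simp
      ring
    linarith
  rcases Nat.even_or_odd' j with ⟨i, hi | hi⟩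
  · exact hbound i i (by omega) (by omega) (by omega)
  · exact hbound (i + 1) i (by omega) (by omega) (by omega)

lemma tau_one_even (hn : 0 < n) {R : Perm (Fin n) →* Module.End ℝ V} (hR : Orth R) (v : V)
    (p : Fin n) (i : ℕ) : tau R v 1 p (2 * i) = mom R v i := by
  unfold tau mom
  rw [← avg_apply hn (fun b => ‖(X R b ^ i) v‖ ^ 2) p]
  congr 1
  refine Finset.sum_congr rfl (fun g _ => ?_)
  rw [two_mul, pow_add, Module.End.mul_apply, ← X_pow_symm hR, ← real_inner_self_eq_norm_sq]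
  simp

lemma tau_one_eq (R : Perm (Fin n) →* Module.End ℝ V) (v : V) (p q : Fin n) (j : ℕ) :
    tau R v 1 p j = tau R v 1 q j := by
  have := tau_conj R v 1 (swap q p) q j
  simpa using this

lemma tau_sum' (hn : 0 < n) {R : Perm (Fin n) →* Module.End ℝ V} {v : V} {χ : Perm (Fin n) → ℝ}
    (hs : IsState R v χ) (π : Perm (Fin n)) (p : Fin n) (j : ℕ) :
    ∑ q, tau R v π q j = (n : ℝ) * χ π * tau R v 1 p j := by
  have h1 := tau_sum hs π j
  have h2 := tau_sum hs 1 j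
  have h3 : χ 1 = 1 := by
    have h4 := hs.eig 1
    have h5 : Z R 1 v = (n.factorial : ℝ) • v := by
      unfold Z
      rw [LinearMap.sum_apply]
      simp [Fintype.card_perm, Nat.cast_smul_eq_nsmul]
    rw [h5] at h4
    have hv : v ≠ 0 := by
      intro h0
      have := hs.norm_eq
      rw [h0] at this
      simp at this
    have h6 : (n.factorial : ℝ) = (n.factorial : ℝ) * χ 1 := smul_left_injective ℝ hv h4
    have := fact_ne n
    field_simp at h6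
    linarith
  rw [h3, one_mul] at h2
  rw [Finset.sum_congr rfl (fun q _ => tau_one_eq R v q p j)] at h2
  rw [h1, ← h2]
  simp
  ring

end Pool.Agent.OG88
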